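import Mathlib

set_option autoImplicit false

open MeasureTheory Set Filter Topology
open scoped NNReal ENNReal

namespace Pool.Agent.Helper865.Sub

/-- The Euclidean plane. -/
abbrev Plane : Type := EuclideanSpace ℝ (Fin 2)

/-- The paths `[0, ∞) → ℝ²` that start at `p` and have speed at most `c`. -/
def Paths (p : Plane) (c : ℝ) : Set (ℝ≥0 → Plane) :=
  {σ | σ 0 = p ∧ ∀ s t : ℝ≥0, ‖σ s - σ t‖ ≤ c * |(s : ℝ) - (t : ℝ)|}

/-- Capture: at some time the two players are at distance at most `r`. -/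
def Captured (r : ℝ) (σ h : ℝ≥0 → Plane) : Prop :=
  ∃ t : ℝ≥0, ‖σ t - h t‖ ≤ r

/-- The maximin probability of ultimate capture. -/
noncomputable def value (r w : ℝ) (A : Plane) : ℝ≥0∞ :=
  ⨆ μ : ProbabilityMeasure (Paths A 1), ⨅ h : Paths (0 : Plane) w,
    (μ : Measure (Paths A 1)) {σ | Captured r (σ : ℝ≥0 → Plane) (h : ℝ≥0 → Plane)}

end Pool.Agent.Helper865.Sub
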