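import Pool.Agent.Helper865.Sub.Defs

set_option autoImplicit false

open MeasureTheory Set Filter Topology
open scoped NNReal ENNReal

namespace Pool.Agent.Helper865.Sub


theorem pathWP (P : ℕ → Plane) (d : ℕ → ℝ) (hd0 : ∀ i, 0 < d i)
    (hd : ∀ i, ‖P (i + 1) - P i‖ ≤ d i) (n : ℕ) :
    ∃ B : ℝ → Plane, (∀ s t, ‖B s - B t‖ ≤ |s - t|) ∧ (∀ t ≤ 0, B t = P 0) ∧
      (∀ t, ∑ j ∈ Finset.range n, d j ≤ t → B t = P n) ∧
      ∀ i < n, ∀ s ∈ Icc (0 : ℝ) 1,
        B (∑ j ∈ Finset.range i, d j + s * d i) = P i + s • (P (i + 1) - P i) := by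
  induction n with
  | zero =>
    refine ⟨fun _ => P 0, fun s t => by simp, fun t _ => rfl, fun t _ => rfl, fun i hi => ?_⟩
    exact absurd hi (Nat.not_lt_zero i)
  | succ n ih =>
    obtain ⟨B, h1, h2, h3, h4⟩ := ih
    obtain ⟨T, hT⟩ : ∃ T, T = ∑ j ∈ Finset.range n, d j := ⟨_, rfl⟩
    have hT0 : 0 ≤ T := by rw [hT]; exact Finset.sum_nonneg fun j _ => (hd0 j).le
    rw [← hT] at h3
    have hdn := hd0 n
    obtain ⟨c, hc⟩ : ∃ c : ℝ → ℝ, c = fun t => max 0 (min 1 ((t - T) / d n)) := ⟨_, rfl⟩
    have hc0 : ∀ t ≤ T, c t = 0 := by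
      intro t ht
      rw [hc]
      have : (t - T) / d n ≤ 0 := div_nonpos_of_nonpos_of_nonneg (by linarith) hdn.le
      exact max_eq_left ((min_le_right _ _).trans this)
    have hc1 : ∀ t, T + d n ≤ t → c t = 1 := by
      intro t ht
      rw [hc]
      have : 1 ≤ (t - T) / d n := by rw [le_div_iff₀ hdn]; linarith
      show max 0 (min 1 ((t - T) / d n)) = 1
      rw [min_eq_left this]; norm_num
    have hcL : ∀ s t, |c s - c t| ≤ |s - t| / d n := by
      intro s t
      rw [hc]
      have e1 : |max 0 (min 1 ((s - T) / d n)) - max 0 (min 1 ((t - T) / d n))| ≤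
          |min 1 ((s - T) / d n) - min 1 ((t - T) / d n)| := by
        have := abs_max_sub_max_le_max 0 (min 1 ((s - T) / d n)) 0 (min 1 ((t - T) / d n))
        simpa using this
      have e2 : |min 1 ((s - T) / d n) - min 1 ((t - T) / d n)| ≤
          |(s - T) / d n - (t - T) / d n| := by
        have := abs_min_sub_min_le_max 1 ((s - T) / d n) 1 ((t - T) / d n)
        simpa using this
      refine (e1.trans e2).trans (le_of_eq ?_)
      rw [← sub_div, sub_sub_sub_cancel_right, abs_div, abs_of_pos hdn]
    have hA : ∀ s t, s ≤ T → t ≤ T →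
        ‖(B s + c s • (P (n + 1) - P n)) - (B t + c t • (P (n + 1) - P n))‖ ≤ |s - t| := by
      intro s t hs ht
      rw [hc0 s hs, hc0 t ht]
      simpa using h1 s t
    have hB : ∀ s t, T ≤ s → T ≤ t →
        ‖(B s + c s • (P (n + 1) - P n)) - (B t + c t • (P (n + 1) - P n))‖ ≤ |s - t| := by
      intro s t hs ht
      rw [h3 s hs, h3 t ht, add_sub_add_left_eq_sub, ← sub_smul, norm_smul, Real.norm_eq_abs]
      calc |c s - c t| * ‖P (n + 1) - P n‖ ≤ (|s - t| / d n) * d n :=
            mul_le_mul (hcL s t) (hd n) (norm_nonneg _) (by positivity)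
        _ = |s - t| := div_mul_cancel₀ _ hdn.ne'
    have hmix : ∀ s t, s ≤ T → T ≤ t →
        ‖(B s + c s • (P (n + 1) - P n)) - (B t + c t • (P (n + 1) - P n))‖ ≤ |s - t| := by
      intro s t hs ht
      have e1 := hA s T hs le_rfl
      have e2 := hB T t le_rfl ht
      have e3 := norm_sub_le_norm_sub_add_norm_sub (B s + c s • (P (n + 1) - P n))
        (B T + c T • (P (n + 1) - P n)) (B t + c t • (P (n + 1) - P n))
      have e4 : |s - t| = |s - T| + |T - t| := by
        rw [abs_of_nonpos (by linarith), abs_of_nonpos (by linarith), abs_of_nonpos (by linarith)]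
        ring
      rw [e4]
      linarith
    refine ⟨fun t => B t + c t • (P (n + 1) - P n), ?_, ?_, ?_, ?_⟩
    · intro s t
      rcases le_total s T with hs | hs <;> rcases le_total t T with ht | ht
      · exact hA s t hs ht
      · exact hmix s t hs ht
      · have := hmix t s ht hs
        rw [norm_sub_rev, abs_sub_comm]
        exact this
      · exact hB s t hs ht
    · intro t ht
      show B t + c t • (P (n + 1) - P n) = P 0
      rw [hc0 t (ht.trans hT0), h2 t ht, zero_smul, add_zero]
    · intro t ht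
      rw [Finset.sum_range_succ, ← hT] at ht
      show B t + c t • (P (n + 1) - P n) = P (n + 1)
      rw [hc1 t ht, h3 t (by linarith), one_smul]
      abel
    · intro i hi s hs
      show B (∑ j ∈ Finset.range i, d j + s * d i) +
        c (∑ j ∈ Finset.range i, d j + s * d i) • (P (n + 1) - P n) = _
      rcases Nat.lt_succ_iff_lt_or_eq.1 hi with hi' | hi'
      · have e1 : ∑ j ∈ Finset.range i, d j + s * d i ≤ T := by
          have e2 : ∑ j ∈ Finset.range (i + 1), d j ≤ T := by
            rw [hT]
            exact Finset.sum_le_sum_of_subset_of_nonneg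
              (Finset.range_subset_range.2 hi') (fun j _ _ => (hd0 j).le)
          rw [Finset.sum_range_succ] at e2
          have e3 : s * d i ≤ d i := by nlinarith [hs.2, hd0 i]
          linarith
        rw [hc0 _ e1, zero_smul, add_zero]
        exact h4 i hi' s hs
      · subst hi'
        rw [← hT]
        have e1 : T ≤ T + s * d i := by nlinarith [hs.1, hd0 i]
        have e2 : c (T + s * d i) = s := by
          rw [hc]
          show max 0 (min 1 ((T + s * d i - T) / d i)) = s
          have e3 : (T + s * d i - T) / d i = s := by field_simp; ring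
          rw [e3, min_eq_right hs.2, max_eq_right hs.1]
        rw [h3 _ e1, e2]

end Pool.Agent.Helper865.Sub
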