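import Pool.Agent.Helper865.Sub.Defs

set_option autoImplicit false

open MeasureTheory Set Filter Topology
open scoped NNReal ENNReal

namespace Pool.Agent.Helper865.Sub


theorem sh_J (X : ℝ) (hX : 0 ≤ X) : ∫ x in (0:ℝ)..X, Real.sqrt (1 - x ^ 2) ≤ Real.pi / 4 := by
  have hc : Continuous (fun x : ℝ => Real.sqrt (1 - x ^ 2)) := by fun_prop
  have hi : ∀ a b : ℝ, IntervalIntegrable (fun x : ℝ => Real.sqrt (1 - x ^ 2)) volume a b :=
    fun a b => hc.intervalIntegrable a b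
  have h1 : ∫ x in (0:ℝ)..1, Real.sqrt (1 - x ^ 2) = Real.pi / 4 := by
    have h2 := integral_sqrt_one_sub_sq
    have h3 := intervalIntegral.integral_add_adjacent_intervals (hi (-1) 0) (hi 0 1)
    have h4 : ∫ x in (-1:ℝ)..0, Real.sqrt (1 - x ^ 2) = ∫ x in (0:ℝ)..1, Real.sqrt (1 - x ^ 2) := by
      have h5 := intervalIntegral.integral_comp_neg (a := 0) (b := 1)
        (fun x : ℝ => Real.sqrt (1 - x ^ 2))
      simp only [neg_sq, neg_zero] at h5
      exact h5.symm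
    rw [h2, h4] at h3
    linarith
  have h6 := intervalIntegral.integral_add_adjacent_intervals (hi 0 X) (hi X (max X 1))
  have h7 : 0 ≤ ∫ x in X..(max X 1), Real.sqrt (1 - x ^ 2) :=
    intervalIntegral.integral_nonneg (le_max_left _ _) fun x _ => Real.sqrt_nonneg _
  have h8 := intervalIntegral.integral_add_adjacent_intervals (hi 0 1) (hi 1 (max X 1))
  have h9 : ∫ x in (1:ℝ)..(max X 1), Real.sqrt (1 - x ^ 2) = 0 := by
    have h10 : ∫ x in (1:ℝ)..(max X 1), Real.sqrt (1 - x ^ 2) = ∫ x in (1:ℝ)..(max X 1), (0:ℝ) := by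
      refine intervalIntegral.integral_congr fun x hx => ?_
      rw [uIcc_of_le (le_max_right _ _)] at hx
      exact Real.sqrt_eq_zero_of_nonpos (by nlinarith [hx.1])
    rw [h10, intervalIntegral.integral_zero]
  rw [h1, h9] at h8
  linarith

theorem sh_L (ρ D : ℝ) (hD : 0 < D) (hρ : 0 < ρ) (b : ℝ) (hb : 0 ≤ b) (m : ℕ) :
    ∑ i ∈ Finset.range m, Real.sqrt (ρ ^ 2 - (D * (b + ((i + 1 : ℕ) : ℝ))) ^ 2) ≤
      Real.pi * ρ ^ 2 / (4 * D) := by
  have hanti : AntitoneOn (fun x : ℝ => Real.sqrt (ρ ^ 2 - (D * x) ^ 2)) (Icc b (b + m)) := by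
    intro x hx y hy hxy
    apply Real.sqrt_le_sqrt
    have h1 : 0 ≤ x := hb.trans hx.1
    have h2 : D * x ≤ D * y := mul_le_mul_of_nonneg_left hxy hD.le
    have h3 : 0 ≤ D * x := mul_nonneg hD.le h1
    nlinarith
  have h1 := hanti.sum_le_integral
  refine h1.trans ?_
  have hc : Continuous (fun x : ℝ => Real.sqrt (ρ ^ 2 - (D * x) ^ 2)) := by fun_prop
  have h2 := intervalIntegral.integral_add_adjacent_intervals
    (hc.intervalIntegrable (μ := volume) 0 b) (hc.intervalIntegrable (μ := volume) b (b + m))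
  have h3 : 0 ≤ ∫ x in (0:ℝ)..b, Real.sqrt (ρ ^ 2 - (D * x) ^ 2) :=
    intervalIntegral.integral_nonneg hb fun x _ => Real.sqrt_nonneg _
  have h4 : ∀ x : ℝ, Real.sqrt (ρ ^ 2 - (D * x) ^ 2) =
      ρ * (fun y : ℝ => Real.sqrt (1 - y ^ 2)) (D / ρ * x) := by
    intro x
    show Real.sqrt (ρ ^ 2 - (D * x) ^ 2) = ρ * Real.sqrt (1 - (D / ρ * x) ^ 2)
    have h5 : ρ ^ 2 - (D * x) ^ 2 = ρ ^ 2 * (1 - (D / ρ * x) ^ 2) := by
      field_simp
    rw [h5, Real.sqrt_mul (sq_nonneg ρ), Real.sqrt_sq hρ.le]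
  have h6 : ∫ x in (0:ℝ)..(b + m), Real.sqrt (ρ ^ 2 - (D * x) ^ 2) ≤ Real.pi * ρ ^ 2 / (4 * D) := by
    have h8 := intervalIntegral.integral_comp_mul_left (a := 0) (b := b + m)
      (fun y : ℝ => Real.sqrt (1 - y ^ 2)) (by positivity : D / ρ ≠ 0)
    simp only [mul_zero] at h8
    simp_rw [h4]
    rw [intervalIntegral.integral_const_mul, h8]
    have h7 := sh_J (D / ρ * (b + m)) (by positivity)
    rw [smul_eq_mul]
    calc ρ * ((D / ρ)⁻¹ * ∫ x in (0:ℝ)..(D / ρ * (b + m)), Real.sqrt (1 - x ^ 2))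
        ≤ ρ * ((D / ρ)⁻¹ * (Real.pi / 4)) := by gcongr
      _ = Real.pi * ρ ^ 2 / (4 * D) := by
        field_simp
  linarith

theorem sumHalf (ρ D : ℝ) (hD : 0 < D) (hDρ : D ≤ ρ) (K : ℕ) :
    ∑ k ∈ Finset.range K,
        2 * Real.sqrt (ρ ^ 2 - (max 0 (|-ρ + (k : ℝ) * D + D| - 2 * D)) ^ 2)
      ≤ Real.pi * ρ ^ 2 / D + 20 * ρ := by
  have hρ : 0 < ρ := hD.trans_le hDρ
  set t : ℕ → ℝ := fun k => Real.sqrt (ρ ^ 2 - (max 0 (|-ρ + (k : ℝ) * D + D| - 2 * D)) ^ 2) with ht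
  have ht0 : ∀ k, 0 ≤ t k := fun k => Real.sqrt_nonneg _
  have htρ : ∀ k, t k ≤ ρ := by
    intro k
    have h1 : t k ≤ Real.sqrt (ρ ^ 2) :=
      Real.sqrt_le_sqrt (by nlinarith [sq_nonneg (max 0 (|-ρ + (k : ℝ) * D + D| - 2 * D))])
    rwa [Real.sqrt_sq hρ.le] at h1
  obtain ⟨n, hn1, hn2⟩ : ∃ n : ℕ, (n : ℝ) * D + D ≤ ρ ∧ ρ < (n : ℝ) * D + D + D := by
    have h0 : 0 ≤ ρ / D - 1 := by
      rw [sub_nonneg, one_le_div hD]
      exact hDρ
    refine ⟨⌊ρ / D - 1⌋₊, ?_, ?_⟩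
    · have h1 := Nat.floor_le h0
      have h2 : (⌊ρ / D - 1⌋₊ : ℝ) * D ≤ (ρ / D - 1) * D := mul_le_mul_of_nonneg_right h1 hD.le
      rw [sub_mul, div_mul_cancel₀ _ hD.ne', one_mul] at h2
      linarith
    · have h1 := Nat.lt_floor_add_one (ρ / D - 1)
      have h2 : (ρ / D - 1) * D < ((⌊ρ / D - 1⌋₊ : ℝ) + 1) * D := mul_lt_mul_of_pos_right h1 hD
      rw [sub_mul, div_mul_cancel₀ _ hD.ne', one_mul] at h2
      linarith
  -- right part
  have hR : ∑ i ∈ Finset.range K, t (n + 4 + i) ≤ Real.pi * ρ ^ 2 / (4 * D) := by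
    have hb : 0 ≤ ((n : ℝ) * D + D + D - ρ) / D := by
      apply div_nonneg _ hD.le
      linarith
    refine le_trans (le_of_eq ?_) (sh_L ρ D hD hρ _ hb K)
    refine Finset.sum_congr rfl fun i _ => ?_
    have h1 : D * (((n : ℝ) * D + D + D - ρ) / D + ((i + 1 : ℕ) : ℝ)) =
        (n : ℝ) * D + D + D - ρ + (i + 1) * D := by
      push_cast
      field_simp
    have h2 : -ρ + ((n + 4 + i : ℕ) : ℝ) * D + D = (n : ℝ) * D + D + D - ρ + (i + 1) * D + 2 * D := by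
      push_cast
      ring
    have h3 : 0 ≤ (n : ℝ) * D + D + D - ρ + (i + 1) * D := by
      have : 0 ≤ ((i : ℝ) + 1) * D := by positivity
      linarith
    show Real.sqrt (ρ ^ 2 - (max 0 (|-ρ + ((n + 4 + i : ℕ) : ℝ) * D + D| - 2 * D)) ^ 2) = _
    rw [h1, h2, abs_of_nonneg (by linarith), add_sub_cancel_right, max_eq_right h3]
  -- left part
  have hL : ∑ i ∈ Finset.range (n - 2), t i ≤ Real.pi * ρ ^ 2 / (4 * D) := by
    have hb : 0 ≤ (ρ - ((n : ℝ) * D + D)) / D := by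
      apply div_nonneg _ hD.le
      linarith
    rw [← Finset.sum_range_reflect]
    refine le_trans (le_of_eq ?_) (sh_L ρ D hD hρ _ hb (n - 2))
    refine Finset.sum_congr rfl fun i hi => ?_
    rw [Finset.mem_range] at hi
    have h1 : D * ((ρ - ((n : ℝ) * D + D)) / D + ((i + 1 : ℕ) : ℝ)) =
        ρ - ((n : ℝ) * D + D) + (i + 1) * D := by
      push_cast
      field_simp
    have h4 : ((n - 2 - 1 - i : ℕ) : ℝ) = (n : ℝ) - 3 - i := by
      have h5 : n - 2 - 1 - i + 3 + i = n := by omega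
      have h6 : ((n - 2 - 1 - i : ℕ) : ℝ) + 3 + i = n := by exact_mod_cast h5
      linarith
    have h2 : -ρ + ((n - 2 - 1 - i : ℕ) : ℝ) * D + D =
        -(ρ - ((n : ℝ) * D + D) + (i + 1) * D + 2 * D) := by
      rw [h4]
      ring
    have h3 : 0 ≤ ρ - ((n : ℝ) * D + D) + (i + 1) * D := by
      have : 0 ≤ ((i : ℝ) + 1) * D := by positivity
      linarith
    show Real.sqrt (ρ ^ 2 - (max 0 (|-ρ + ((n - 2 - 1 - i : ℕ) : ℝ) * D + D| - 2 * D)) ^ 2) = _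
    rw [h1, h2, abs_neg, abs_of_nonneg (by linarith), add_sub_cancel_right, max_eq_right h3]
  -- middle part
  have hM : ∑ i ∈ Finset.range (n + 4 - (n - 2)), t (n - 2 + i) ≤ 6 * ρ := by
    calc ∑ i ∈ Finset.range (n + 4 - (n - 2)), t (n - 2 + i)
        ≤ ∑ _i ∈ Finset.range (n + 4 - (n - 2)), ρ := Finset.sum_le_sum fun i _ => htρ _
      _ = ((n + 4 - (n - 2) : ℕ) : ℝ) * ρ := by
        rw [Finset.sum_const, Finset.card_range, nsmul_eq_mul]
      _ ≤ 6 * ρ := by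
        have : n + 4 - (n - 2) ≤ 6 := by omega
        have h1 : ((n + 4 - (n - 2) : ℕ) : ℝ) ≤ 6 := by exact_mod_cast this
        exact mul_le_mul_of_nonneg_right h1 hρ.le
  have hsum1 : ∑ k ∈ Finset.range K, t k ≤ ∑ k ∈ Finset.range (n + 4 + K), t k := by
    refine Finset.sum_le_sum_of_subset_of_nonneg ?_ fun k _ _ => ht0 k
    intro k hk
    rw [Finset.mem_range] at hk ⊢
    omega
  have hsum2 : ∑ k ∈ Finset.range (n + 4 + K), t k =
      ∑ k ∈ Finset.range (n + 4), t k + ∑ i ∈ Finset.range K, t (n + 4 + i) :=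
    Finset.sum_range_add _ _ _
  have hsum3 : ∑ k ∈ Finset.range (n + 4), t k =
      ∑ k ∈ Finset.range (n - 2), t k + ∑ i ∈ Finset.range (n + 4 - (n - 2)), t (n - 2 + i) := by
    rw [← Finset.sum_range_add]
    congr 2
    omega
  have hfin : ∑ k ∈ Finset.range K, 2 * t k ≤ Real.pi * ρ ^ 2 / D + 20 * ρ := by
    rw [← Finset.mul_sum]
    have h9 : Real.pi * ρ ^ 2 / (4 * D) = (Real.pi * ρ ^ 2 / D) / 4 := by
      field_simp
    rw [h9] at hR hL
    linarith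
  exact hfin

end Pool.Agent.Helper865.Sub
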