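import Pool.Agent.Helper865.Sub.Defs

set_option autoImplicit false

open MeasureTheory Set Filter Topology
open scoped NNReal ENNReal

namespace Pool.Agent.Helper865.Sub


theorem varHalf (ρ D : ℝ) (hD : 0 < D) (hDρ : D ≤ ρ) (K : ℕ) :
    ∑ k ∈ Finset.range K,
        |Real.sqrt (ρ ^ 2 - (max 0 (|-ρ + ((k + 1 : ℕ) : ℝ) * D + D| - 2 * D)) ^ 2)
          - Real.sqrt (ρ ^ 2 - (max 0 (|-ρ + (k : ℝ) * D + D| - 2 * D)) ^ 2)|
      ≤ 2 * ρ := by
  obtain ⟨F, hF⟩ : ∃ F : ℝ → ℝ, ∀ y, F y =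
      Real.sqrt (ρ ^ 2 - (max 0 (|y + D| - 2 * D)) ^ 2) := ⟨_, fun _ => rfl⟩
  have hρ : 0 < ρ := hD.trans_le hDρ
  have hF0 : ∀ y, 0 ≤ F y := fun y => by rw [hF]; exact Real.sqrt_nonneg _
  have hFρ : ∀ y, F y ≤ ρ := by
    intro y
    rw [hF]
    calc Real.sqrt (ρ ^ 2 - (max 0 (|y + D| - 2 * D)) ^ 2) ≤ Real.sqrt (ρ ^ 2) :=
          Real.sqrt_le_sqrt (by nlinarith [sq_nonneg (max 0 (|y + D| - 2 * D))])
      _ = ρ := Real.sqrt_sq hρ.le
  have hmono : ∀ y y', |y' + D| ≤ |y + D| → F y ≤ F y' := by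
    intro y y' h
    rw [hF, hF]
    apply Real.sqrt_le_sqrt
    have h1 : max 0 (|y' + D| - 2 * D) ≤ max 0 (|y + D| - 2 * D) :=
      max_le_max le_rfl (by linarith)
    have h2 : 0 ≤ max 0 (|y' + D| - 2 * D) := le_max_left _ _
    have h3 : (max 0 (|y' + D| - 2 * D)) ^ 2 ≤ (max 0 (|y + D| - 2 * D)) ^ 2 :=
      pow_le_pow_left₀ h2 h1 2
    linarith
  have key : ∀ K : ℕ,
      (-ρ + (K : ℝ) * D ≤ -D → ∑ k ∈ Finset.range K,
        |F (-ρ + ((k + 1 : ℕ) : ℝ) * D) - F (-ρ + (k : ℝ) * D)| ≤ F (-ρ + (K : ℝ) * D)) ∧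
      (¬ -ρ + (K : ℝ) * D ≤ -D → ∑ k ∈ Finset.range K,
        |F (-ρ + ((k + 1 : ℕ) : ℝ) * D) - F (-ρ + (k : ℝ) * D)| + F (-ρ + (K : ℝ) * D)
          ≤ 2 * ρ) := by
    intro K
    induction K with
    | zero =>
      constructor
      · intro _
        simp only [Finset.range_zero, Finset.sum_empty]
        exact hF0 _
      · intro _
        simp only [Finset.range_zero, Finset.sum_empty]
        linarith [hFρ (-ρ + ((0 : ℕ) : ℝ) * D)]
    | succ K ih =>
      obtain ⟨ih1, ih2⟩ := ih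
      have hstep : -ρ + ((K + 1 : ℕ) : ℝ) * D = -ρ + (K : ℝ) * D + D := by
        push_cast; ring
      rw [Finset.sum_range_succ]
      generalize hy : -ρ + (K : ℝ) * D = y at *
      generalize hy' : -ρ + ((K + 1 : ℕ) : ℝ) * D = y' at *
      constructor
      · intro h
        have h1 : y ≤ -D := by linarith
        have h2 : F y ≤ F y' := by
          apply hmono
          rw [abs_of_nonpos (by linarith : y' + D ≤ 0), abs_of_nonpos (by linarith : y + D ≤ 0)]
          linarith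
        have h3 := ih1 h1
        rw [abs_of_nonneg (by linarith : 0 ≤ F y' - F y)]
        linarith
      · intro h
        have h' : -D < y' := not_le.1 h
        by_cases h1 : y ≤ -D
        · have h3 := ih1 h1
          rcases le_total (F y) (F y') with h4 | h4
          · rw [abs_of_nonneg (by linarith : 0 ≤ F y' - F y)]
            linarith [hFρ y']
          · rw [abs_of_nonpos (by linarith : F y' - F y ≤ 0)]
            linarith [hFρ y]
        · have h3 := ih2 h1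
          have h1' : -D < y := not_le.1 h1
          have h2 : F y' ≤ F y := by
            apply hmono
            rw [abs_of_nonneg (by linarith : 0 ≤ y' + D), abs_of_nonneg (by linarith : 0 ≤ y + D)]
            linarith
          rw [abs_of_nonpos (by linarith : F y' - F y ≤ 0)]
          linarith
  have hsum : ∑ k ∈ Finset.range K,
        |Real.sqrt (ρ ^ 2 - (max 0 (|-ρ + ((k + 1 : ℕ) : ℝ) * D + D| - 2 * D)) ^ 2)
          - Real.sqrt (ρ ^ 2 - (max 0 (|-ρ + (k : ℝ) * D + D| - 2 * D)) ^ 2)| =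
      ∑ k ∈ Finset.range K, |F (-ρ + ((k + 1 : ℕ) : ℝ) * D) - F (-ρ + (k : ℝ) * D)| := by
    refine Finset.sum_congr rfl fun k _ => ?_
    rw [hF, hF]
  rw [hsum]
  by_cases h : -ρ + (K : ℝ) * D ≤ -D
  · have h1 := (key K).1 h
    linarith [hFρ (-ρ + (K : ℝ) * D)]
  · have h1 := (key K).2 h
    linarith [hF0 (-ρ + (K : ℝ) * D)]

end Pool.Agent.Helper865.Sub
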