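import Pool.Agent.Helper865.Sub.Defs

set_option autoImplicit false

open MeasureTheory Set Filter Topology
open scoped NNReal ENNReal

namespace Pool.Agent.Helper865.Sub


theorem nrm2 (v : Plane) : ‖v‖ ≤ |v 0| + |v 1| := by
  rw [EuclideanSpace.norm_eq, Fin.sum_univ_two]
  apply Real.sqrt_le_iff.2
  refine ⟨by positivity, ?_⟩
  simp only [Real.norm_eq_abs]
  nlinarith [mul_nonneg (abs_nonneg (v 0)) (abs_nonneg (v 1))]

/-- waypoint -/
noncomputable def lQ (x : ℕ → ℝ) (ρ D : ℝ) (k : ℕ) (b : Bool) : Plane :=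
  !₂[(if b then 1 else -1) * (-1) ^ k * x k, -ρ + (k : ℝ) * D]

noncomputable def lP (x : ℕ → ℝ) (ρ D : ℝ) (K : ℕ) (i : ℕ) : Plane :=
  if i = 0 ∨ 2 * K < i then 0 else lQ x ρ D ((i - 1) / 2) (decide (i % 2 = 0))

noncomputable def ld (x : ℕ → ℝ) (ρ D : ℝ) (K : ℕ) (i : ℕ) : ℝ :=
  if i = 0 ∨ i = 2 * K then 2 * ρ else if 2 * K < i then 1 else
    if i % 2 = 1 then 2 * x ((i - 1) / 2) else |x ((i - 1) / 2 + 1) - x ((i - 1) / 2)| + D

theorem lQ_0 (x : ℕ → ℝ) (ρ D : ℝ) (k : ℕ) (b : Bool) :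
    lQ x ρ D k b 0 = (if b then 1 else -1) * (-1) ^ k * x k := by simp [lQ]

theorem lQ_1 (x : ℕ → ℝ) (ρ D : ℝ) (k : ℕ) (b : Bool) :
    lQ x ρ D k b 1 = -ρ + (k : ℝ) * D := by simp [lQ]

theorem lP_zero (x : ℕ → ℝ) (ρ D : ℝ) (K : ℕ) : lP x ρ D K 0 = 0 := by simp [lP]

theorem lP_big (x : ℕ → ℝ) (ρ D : ℝ) (K i : ℕ) (h : 2 * K < i) : lP x ρ D K i = 0 := by
  simp [lP, h]

theorem lP_odd (x : ℕ → ℝ) (ρ D : ℝ) (K k : ℕ) (h : k < K) :
    lP x ρ D K (2 * k + 1) = lQ x ρ D k false := by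
  unfold lP
  rw [if_neg (by omega)]
  have h1 : (2 * k + 1 - 1) / 2 = k := by omega
  have h2 : decide ((2 * k + 1) % 2 = 0) = false := decide_eq_false (by omega)
  rw [h1, h2]

theorem lP_even (x : ℕ → ℝ) (ρ D : ℝ) (K k : ℕ) (h : k < K) :
    lP x ρ D K (2 * k + 2) = lQ x ρ D k true := by
  unfold lP
  rw [if_neg (by omega)]
  have h1 : (2 * k + 2 - 1) / 2 = k := by omega
  have h2 : decide ((2 * k + 2) % 2 = 0) = true := decide_eq_true (by omega)
  rw [h1, h2]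

theorem ld_zero (x : ℕ → ℝ) (ρ D : ℝ) (K : ℕ) : ld x ρ D K 0 = 2 * ρ := by simp [ld]

theorem ld_last (x : ℕ → ℝ) (ρ D : ℝ) (K : ℕ) : ld x ρ D K (2 * K) = 2 * ρ := by simp [ld]

theorem ld_big (x : ℕ → ℝ) (ρ D : ℝ) (K i : ℕ) (h : 2 * K < i) : ld x ρ D K i = 1 := by
  unfold ld
  rw [if_neg (by omega), if_pos h]

theorem ld_odd (x : ℕ → ℝ) (ρ D : ℝ) (K k : ℕ) (h : k < K) :
    ld x ρ D K (2 * k + 1) = 2 * x k := by
  unfold ld
  rw [if_neg (by omega), if_neg (by omega), if_pos (by omega)]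
  have h1 : (2 * k + 1 - 1) / 2 = k := by omega
  rw [h1]

theorem ld_even (x : ℕ → ℝ) (ρ D : ℝ) (K k : ℕ) (h : k + 1 < K) :
    ld x ρ D K (2 * k + 2) = |x (k + 1) - x k| + D := by
  unfold ld
  rw [if_neg (by omega), if_neg (by omega), if_neg (by omega)]
  have h1 : (2 * k + 2 - 1) / 2 = k := by omega
  rw [h1]

theorem lawn
    (pathWP : ∀ (P : ℕ → Plane) (d : ℕ → ℝ), (∀ i, 0 < d i) →
      (∀ i, ‖P (i + 1) - P i‖ ≤ d i) → ∀ (n : ℕ),
      ∃ B : ℝ → Plane, (∀ s t, ‖B s - B t‖ ≤ |s - t|) ∧ (∀ t ≤ 0, B t = P 0) ∧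
        (∀ t, ∑ j ∈ Finset.range n, d j ≤ t → B t = P n) ∧
        ∀ i < n, ∀ s ∈ Icc (0 : ℝ) 1,
          B (∑ j ∈ Finset.range i, d j + s * d i) = P i + s • (P (i + 1) - P i))
    (sumHalf : ∀ (ρ D : ℝ), 0 < D → D ≤ ρ → ∀ (K : ℕ),
      ∑ k ∈ Finset.range K,
          2 * Real.sqrt (ρ ^ 2 - (max 0 (|-ρ + (k : ℝ) * D + D| - 2 * D)) ^ 2)
        ≤ Real.pi * ρ ^ 2 / D + 20 * ρ)
    (varHalf : ∀ (ρ D : ℝ), 0 < D → D ≤ ρ → ∀ (K : ℕ),
      ∑ k ∈ Finset.range K,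
          |Real.sqrt (ρ ^ 2 - (max 0 (|-ρ + ((k + 1 : ℕ) : ℝ) * D + D| - 2 * D)) ^ 2)
            - Real.sqrt (ρ ^ 2 - (max 0 (|-ρ + (k : ℝ) * D + D| - 2 * D)) ^ 2)|
        ≤ 2 * ρ)
    (ρ D : ℝ) (hD : 0 < D) (hDρ : D ≤ ρ) :
    ∃ (K : ℕ) (L : ℝ) (B : ℝ → Plane) (α β x : ℕ → ℝ),
      (∀ k, x k = Real.sqrt (ρ ^ 2 - (max 0 (|-ρ + (k : ℝ) * D + D| - 2 * D)) ^ 2)) ∧
      0 ≤ L ∧ L ≤ Real.pi * ρ ^ 2 / D + 100 * ρ ∧ 2 * ρ ≤ K * D ∧ 1 ≤ K ∧
      (∀ s t, ‖B s - B t‖ ≤ |s - t|) ∧ (∀ t ≤ 0, B t = 0) ∧ (∀ t, L ≤ t → B t = 0) ∧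
      (∀ k < K, 0 ≤ α k ∧ α k ≤ β k ∧ β k ≤ L ∧ β k - α k ≤ 2 * ρ) ∧
      (∀ k, k + 1 < K → β k ≤ α (k + 1) ∧ α (k + 1) - β k ≤ ρ + D) ∧
      (∀ k < K, ∀ t ∈ Icc (α k) (β k), (B t) 1 = -ρ + (k : ℝ) * D) ∧
      (∀ k < K, ((B (α k)) 0 = -x k ∧ (B (β k)) 0 = x k) ∨
        ((B (α k)) 0 = x k ∧ (B (β k)) 0 = -x k)) := by

  set x : ℕ → ℝ := fun k =>
    Real.sqrt (ρ ^ 2 - (max 0 (|-ρ + (k : ℝ) * D + D| - 2 * D)) ^ 2) with hx
  have hρ : 0 < ρ := lt_of_lt_of_le hD hDρ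
  obtain ⟨M, hM⟩ : ∃ M : ℕ, ⌈2 * ρ / D⌉₊ = M + 1 := by
    have : 0 < ⌈2 * ρ / D⌉₊ := Nat.ceil_pos.2 (by positivity)
    exact ⟨⌈2 * ρ / D⌉₊ - 1, by omega⟩
  have hK1 : 2 * ρ ≤ ((M + 1 : ℕ) : ℝ) * D := by
    rw [← hM, ← div_le_iff₀ hD]
    exact Nat.le_ceil _
  have hM1 : (M : ℝ) * D < 2 * ρ := by
    have h1 := Nat.ceil_lt_add_one (show 0 ≤ 2 * ρ / D by positivity)
    rw [hM] at h1
    push_cast at h1
    have h2 : (M : ℝ) < 2 * ρ / D := by linarith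
    rwa [lt_div_iff₀ hD] at h2
  have hxρ : ∀ k, x k ≤ ρ := by
    intro k
    rw [hx]
    apply Real.sqrt_le_iff.2
    refine ⟨hρ.le, ?_⟩
    have := sq_nonneg (max 0 (|-ρ + (k : ℝ) * D + D| - 2 * D))
    linarith
  have hx0 : ∀ k, 0 ≤ x k := fun k => Real.sqrt_nonneg _
  have hkD : ∀ k, k < M + 1 → (k : ℝ) * D < 2 * ρ := by
    intro k hk
    have h1 : (k : ℝ) ≤ M := by exact_mod_cast Nat.lt_succ_iff.1 hk
    have h2 := mul_le_mul_of_nonneg_right h1 hD.le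
    linarith
  have hy : ∀ k, k < M + 1 → |-ρ + (k : ℝ) * D| ≤ ρ := by
    intro k hk
    have h1 := hkD k hk
    have h2 : 0 ≤ (k : ℝ) * D := by positivity
    rw [abs_le]; constructor <;> linarith
  have hxpos : ∀ k, k < M + 1 → 0 < x k := by
    intro k hk
    apply Real.sqrt_pos.2
    have h1 := hkD k hk
    have h2 : 0 ≤ (k : ℝ) * D := by positivity
    have h3 : max 0 (|-ρ + (k : ℝ) * D + D| - 2 * D) < ρ := by
      apply max_lt hρ
      have : |-ρ + (k : ℝ) * D + D| < ρ + 2 * D := by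
        rw [abs_lt]; constructor <;> linarith
      linarith
    have h4 : 0 ≤ max 0 (|-ρ + (k : ℝ) * D + D| - 2 * D) := le_max_left _ _
    nlinarith
  set K : ℕ := M + 1 with hKdef
  set P := lP x ρ D K with hP
  set d := ld x ρ D K with hd
  -- cases on the index
  have hcases : ∀ i : ℕ, i = 0 ∨ (∃ k, k < K ∧ i = 2 * k + 1) ∨ (∃ k, k + 1 < K ∧ i = 2 * k + 2) ∨
      i = 2 * M + 2 ∨ 2 * K < i := by
    intro i
    rcases Nat.even_or_odd' i with ⟨k, rfl | rfl⟩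
    · rcases Nat.eq_zero_or_pos k with rfl | hk
      · left; rfl
      · obtain ⟨j, rfl⟩ : ∃ j, k = j + 1 := ⟨k - 1, by omega⟩
        rcases lt_trichotomy (j + 1) K with h | h | h
        · right; right; left; exact ⟨j, h, by ring⟩
        · right; right; right; left; omega
        · right; right; right; right; omega
    · rcases lt_or_ge k K with h | h
      · right; left; exact ⟨k, h, rfl⟩
      · right; right; right; right; omega
  have hdlast : d (2 * M + 2) = 2 * ρ := by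
    have : 2 * M + 2 = 2 * K := by omega
    rw [this]; exact ld_last x ρ D K
  have hdpos : ∀ i, 0 < d i := by
    intro i
    rcases hcases i with rfl | ⟨k, hk, rfl⟩ | ⟨k, hk, rfl⟩ | rfl | h
    · rw [hd, ld_zero]; positivity
    · rw [hd, ld_odd x ρ D K k hk]; have := hxpos k hk; positivity
    · rw [hd, ld_even x ρ D K k hk]; positivity
    · rw [hdlast]; positivity
    · rw [hd, ld_big x ρ D K i h]; exact one_pos
  have habs1 : ∀ (k : ℕ), |(-1 : ℝ) ^ k| = 1 := fun k => by simp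
  have hstep : ∀ i, ‖P (i + 1) - P i‖ ≤ d i := by
    intro i
    rcases hcases i with rfl | ⟨k, hk, rfl⟩ | ⟨k, hk, rfl⟩ | rfl | h
    · have e1 : P (0 + 1) = lQ x ρ D 0 false := lP_odd x ρ D K 0 (by omega)
      have e2 : P 0 = 0 := lP_zero x ρ D K
      rw [e1, e2, sub_zero, hd, ld_zero]
      refine (nrm2 _).trans ?_
      rw [lQ_0, lQ_1]
      have h1 := hxρ 0
      have h2 := hx0 0
      simp only [Bool.false_eq_true, if_false, pow_zero, mul_one, neg_mul, one_mul, abs_neg,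
        Nat.cast_zero, zero_mul, add_zero]
      rw [abs_of_nonneg h2, abs_of_pos hρ]
      linarith
    · have e1 : P (2 * k + 1 + 1) = lQ x ρ D k true := lP_even x ρ D K k hk
      have e2 : P (2 * k + 1) = lQ x ρ D k false := lP_odd x ρ D K k hk
      rw [e1, e2, hd, ld_odd x ρ D K k hk]
      refine (nrm2 _).trans ?_
      simp only [PiLp.sub_apply, lQ_0, lQ_1, sub_self, abs_zero, add_zero, Bool.false_eq_true,
        if_false, if_true]
      have e3 : 1 * (-1 : ℝ) ^ k * x k - -1 * (-1) ^ k * x k = (-1) ^ k * (2 * x k) := by ring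
      rw [e3, abs_mul, habs1, one_mul, abs_of_nonneg (by have := hx0 k; linarith)]
    · have e1 : P (2 * k + 2 + 1) = lQ x ρ D (k + 1) false := lP_odd x ρ D K (k + 1) hk
      have e2 : P (2 * k + 2) = lQ x ρ D k true := lP_even x ρ D K k (by omega)
      rw [e1, e2, hd, ld_even x ρ D K k hk]
      refine (nrm2 _).trans ?_
      simp only [PiLp.sub_apply, lQ_0, lQ_1, Bool.false_eq_true, if_false, if_true]
      have e3 : -1 * (-1 : ℝ) ^ (k + 1) * x (k + 1) - 1 * (-1) ^ k * x k =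
        (-1) ^ k * (x (k + 1) - x k) := by rw [pow_succ]; ring
      have e4 : -ρ + ((k + 1 : ℕ) : ℝ) * D - (-ρ + (k : ℝ) * D) = D := by push_cast; ring
      rw [e3, e4, abs_mul, habs1, one_mul, abs_of_pos hD]
    · have e1 : P (2 * M + 2 + 1) = 0 := lP_big x ρ D K _ (by omega)
      have e2 : P (2 * M + 2) = lQ x ρ D M true := lP_even x ρ D K M (by omega)
      rw [e1, e2, zero_sub, norm_neg, hdlast]
      refine (nrm2 _).trans ?_
      rw [lQ_0, lQ_1]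
      simp only [if_true, one_mul]
      rw [abs_mul, habs1, one_mul, abs_of_nonneg (hx0 M)]
      have h1 := hxρ M
      have h2 := hy M (by omega)
      linarith
    · have e1 : P (i + 1) = 0 := lP_big x ρ D K _ (by omega)
      have e2 : P i = 0 := lP_big x ρ D K _ h
      rw [e1, e2, hd, ld_big x ρ D K i h]
      simp
  obtain ⟨B, hB1, hB2, hB3, hB4⟩ := pathWP P d hdpos hstep (2 * K + 1)
  set S : ℕ → ℝ := fun i => ∑ j ∈ Finset.range i, d j with hS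
  have hSsucc : ∀ i, S (i + 1) = S i + d i := fun i => Finset.sum_range_succ _ _
  have hSmono : Monotone S := monotone_nat_of_le_succ fun i => by
    rw [hSsucc]; linarith [hdpos i]
  have hS0 : S 0 = 0 := by simp [hS]
  have hSnn : ∀ i, 0 ≤ S i := fun i => by
    have := hSmono (Nat.zero_le i)
    rwa [hS0] at this
  -- the sum
  have hSodd : ∀ k, k < K → S (2 * k + 1) = 2 * ρ + ∑ i ∈ Finset.range k, 2 * x i +
      ∑ i ∈ Finset.range k, (|x (i + 1) - x i| + D) := by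
    intro k
    induction k with
    | zero =>
      intro _
      rw [show 2 * 0 + 1 = 0 + 1 from rfl, hSsucc, hS0, hd, ld_zero]
      simp
    | succ k ih =>
      intro hk
      have h1 : S (2 * (k + 1) + 1) = S (2 * k + 1) + d (2 * k + 1) + d (2 * k + 2) := by
        rw [show 2 * (k + 1) + 1 = 2 * k + 2 + 1 from by ring, hSsucc,
          show 2 * k + 2 = 2 * k + 1 + 1 from rfl, hSsucc]
      rw [h1, ih (by omega), Finset.sum_range_succ, Finset.sum_range_succ _ k, hd,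
        ld_odd x ρ D K k (by omega), ld_even x ρ D K k hk]
      ring
  have hL : S (2 * K + 1) = 2 * ρ + ∑ i ∈ Finset.range K, 2 * x i +
      (∑ i ∈ Finset.range M, |x (i + 1) - x i| + M * D) + 2 * ρ := by
    have h1 : S (2 * K + 1) = S (2 * M + 1) + d (2 * M + 1) + d (2 * M + 2) := by
      rw [show 2 * K + 1 = 2 * M + 2 + 1 from by omega, hSsucc,
          show 2 * M + 2 = 2 * M + 1 + 1 from rfl, hSsucc]
    rw [h1, hSodd M (by omega), hdlast, hd, ld_odd x ρ D K M (by omega), hKdef,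
      Finset.sum_range_succ _ M, Finset.sum_add_distrib, Finset.sum_const, Finset.card_range,
      nsmul_eq_mul]
    ring
  have hLle : S (2 * K + 1) ≤ Real.pi * ρ ^ 2 / D + 100 * ρ := by
    rw [hL]
    have h1 := sumHalf ρ D hD hDρ K
    have h2 := varHalf ρ D hD hDρ M
    have h3 : ∑ i ∈ Finset.range K, 2 * x i ≤ Real.pi * ρ ^ 2 / D + 20 * ρ := h1
    have h4 : ∑ i ∈ Finset.range M, |x (i + 1) - x i| ≤ 2 * ρ := h2
    linarith
  have hBα : ∀ k, k < K → B (S (2 * k + 1)) = lQ x ρ D k false := by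
    intro k hk
    have h1 := hB4 (2 * k + 1) (by omega) 0 ⟨le_rfl, zero_le_one⟩
    rw [zero_mul, add_zero, zero_smul, add_zero] at h1
    have e2 : P (2 * k + 1) = lQ x ρ D k false := lP_odd x ρ D K k hk
    rw [e2] at h1
    exact h1
  have hBβ : ∀ k, k < K → B (S (2 * k + 2)) = lQ x ρ D k true := by
    intro k hk
    have h1 := hB4 (2 * k + 1) (by omega) 1 ⟨zero_le_one, le_rfl⟩
    rw [one_mul, one_smul, add_sub_cancel] at h1
    have e2 : P (2 * k + 1 + 1) = lQ x ρ D k true := lP_even x ρ D K k hk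
    rw [e2] at h1
    rw [← h1, show 2 * k + 2 = 2 * k + 1 + 1 from rfl, hSsucc]
  refine ⟨K, S (2 * K + 1), B, fun k => S (2 * k + 1), fun k => S (2 * k + 2), x,
    fun k => rfl, hSnn _, hLle, hK1, by omega, hB1, ?_, ?_, ?_, ?_, ?_, ?_⟩
  · intro t ht
    rw [hB2 t ht]; exact lP_zero x ρ D K
  · intro t ht
    rw [hB3 t ht]; exact lP_big x ρ D K _ (by omega)
  · intro k hk
    refine ⟨hSnn _, hSmono (by omega), hSmono (by omega), ?_⟩
    show S (2 * k + 2) - S (2 * k + 1) ≤ 2 * ρ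
    rw [show 2 * k + 2 = 2 * k + 1 + 1 from rfl, hSsucc, hd, ld_odd x ρ D K k hk]
    linarith [hxρ k]
  · intro k hk
    have h1 : S (2 * (k + 1) + 1) = S (2 * k + 2) + d (2 * k + 2) := by
      rw [show 2 * (k + 1) + 1 = 2 * k + 2 + 1 from by ring, hSsucc]
    refine ⟨hSmono (by omega), ?_⟩
    show S (2 * (k + 1) + 1) - S (2 * k + 2) ≤ ρ + D
    rw [h1, hd, ld_even x ρ D K k hk]
    have h2 : |x (k + 1) - x k| ≤ ρ := by
      rw [abs_le]; constructor <;> linarith [hxρ k, hxρ (k + 1), hx0 k, hx0 (k + 1)]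
    linarith
  · intro k hk t ht
    have hd1 : 0 < d (2 * k + 1) := hdpos _
    have ht1 : S (2 * k + 1) ≤ t := ht.1
    have ht2 : t ≤ S (2 * k + 1) + d (2 * k + 1) := by
      have := ht.2
      rwa [← hSsucc]
    have h1 := hB4 (2 * k + 1) (by omega) ((t - S (2 * k + 1)) / d (2 * k + 1))
      ⟨div_nonneg (by linarith) hd1.le, by rw [div_le_one hd1]; linarith⟩
    have h2 : ∑ j ∈ Finset.range (2 * k + 1), d j +
        (t - S (2 * k + 1)) / d (2 * k + 1) * d (2 * k + 1) = t := by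
      rw [div_mul_cancel₀ _ hd1.ne']
      show S (2 * k + 1) + (t - S (2 * k + 1)) = t
      ring
    rw [h2] at h1
    have e1 : P (2 * k + 1 + 1) = lQ x ρ D k true := lP_even x ρ D K k hk
    have e2 : P (2 * k + 1) = lQ x ρ D k false := lP_odd x ρ D K k hk
    rw [h1, e1, e2]
    simp only [PiLp.add_apply, PiLp.smul_apply, PiLp.sub_apply, lQ_1, sub_self, smul_zero, add_zero]
  · intro k hk
    show ((B (S (2 * k + 1))) 0 = -x k ∧ (B (S (2 * k + 2))) 0 = x k) ∨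
        ((B (S (2 * k + 1))) 0 = x k ∧ (B (S (2 * k + 2))) 0 = -x k)
    rw [hBα k hk, hBβ k hk, lQ_0, lQ_0]
    simp only [Bool.false_eq_true, if_false, if_true]
    rcases neg_one_pow_eq_or ℝ k with h | h
    · left; rw [h]; constructor <;> ring
    · right; rw [h]; constructor <;> ring

end Pool.Agent.Helper865.Sub
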