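import Pool.Agent.Helper865.Sub.Defs

set_option autoImplicit false

open MeasureTheory Set Filter Topology
open scoped NNReal ENNReal

namespace Pool.Agent.Helper865.Sub


theorem crossing_nsq (v : Plane) : ‖v‖ ^ 2 = (v 0) ^ 2 + (v 1) ^ 2 := by
  rw [EuclideanSpace.norm_sq_eq, Fin.sum_univ_two, Real.norm_eq_abs, Real.norm_eq_abs, sq_abs,
    sq_abs]

theorem crossing_c (v : Plane) (i : Fin 2) : |v i| ≤ ‖v‖ := by
  have h := crossing_nsq v
  apply abs_le_of_sq_le_sq _ (norm_nonneg v)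
  fin_cases i
  · show (v 0) ^ 2 ≤ _
    nlinarith [sq_nonneg (v 1)]
  · show (v 1) ^ 2 ≤ _
    nlinarith [sq_nonneg (v 0)]

theorem crossing (ρ D w : ℝ) (hD : 0 < D) (hDρ : D ≤ ρ) (hw : 0 ≤ w)
    (hwD : w * (5 * ρ + D) ≤ D)
    (K : ℕ) (L : ℝ) (B : ℝ → Plane) (α β x : ℕ → ℝ)
    (hx : ∀ k, x k = Real.sqrt (ρ ^ 2 - (max 0 (|-ρ + (k : ℝ) * D + D| - 2 * D)) ^ 2))
    (hK : 2 * ρ ≤ K * D) (hK1 : 1 ≤ K) (hB : ∀ s t, ‖B s - B t‖ ≤ |s - t|)
    (hαβ : ∀ k < K, 0 ≤ α k ∧ α k ≤ β k ∧ β k ≤ L ∧ β k - α k ≤ 2 * ρ)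
    (hβα : ∀ k, k + 1 < K → β k ≤ α (k + 1) ∧ α (k + 1) - β k ≤ ρ + D)
    (hB1 : ∀ k < K, ∀ t ∈ Icc (α k) (β k), (B t) 1 = -ρ + (k : ℝ) * D)
    (hB0 : ∀ k < K, ((B (α k)) 0 = -x k ∧ (B (β k)) 0 = x k) ∨
        ((B (α k)) 0 = x k ∧ (B (β k)) 0 = -x k))
    (h : ℝ → Plane) (hh : ∀ s ∈ Icc 0 L, ∀ t ∈ Icc 0 L, ‖h s - h t‖ ≤ w * |s - t|)
    (hρ : ∀ t ∈ Icc 0 L, ‖h t‖ ≤ ρ) :
    ∃ t ∈ Icc 0 L, ∃ z ∈ Icc 0 (D + w * (5 * ρ + D)),
      (h t) 0 = (B t) 0 ∧ (h t) 1 = (B t) 1 + z := by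
  classical
  have hρ0 : 0 < ρ := by linarith
  have hsub : ∀ k < K, ∀ t ∈ Icc (α k) (β k), t ∈ Icc 0 L := by
    intro k hk t ht
    obtain ⟨h1, h2, h3, h4⟩ := hαβ k hk
    exact ⟨h1.trans ht.1, ht.2.trans h3⟩
  have hch : ∀ k, ∃ τ, k < K → τ ∈ Icc (α k) (β k) ∧
      ((∃ t ∈ Icc (α k) (β k), (h t) 0 = (B t) 0) → (h τ) 0 = (B τ) 0) := by
    intro k
    by_cases hc : ∃ t ∈ Icc (α k) (β k), (h t) 0 = (B t) 0
    · obtain ⟨t, ht, ht2⟩ := hc
      exact ⟨t, fun _ => ⟨ht, fun _ => ht2⟩⟩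
    · exact ⟨α k, fun hk => ⟨⟨le_rfl, (hαβ k hk).2.1⟩, fun h => absurd h hc⟩⟩
  choose τ hτ using hch
  -- the last index with nonnegative height
  have hlast : ∃ k < K, 0 ≤ (h (τ k)) 1 - (-ρ + (k : ℝ) * D) ∧
      (k + 1 < K → (h (τ (k + 1))) 1 - (-ρ + ((k + 1 : ℕ) : ℝ) * D) < 0) := by
    by_contra hcon
    push Not at hcon
    have hall : ∀ k < K, 0 ≤ (h (τ k)) 1 - (-ρ + (k : ℝ) * D) := by
      intro k
      induction k with
      | zero =>
        intro hk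
        have h1 := crossing_c (h (τ 0)) 1
        have h2 := hρ (τ 0) (hsub 0 hk _ (hτ 0 hk).1)
        have h3 := (abs_le.1 (h1.trans h2)).1
        push_cast
        linarith
      | succ k ih =>
        intro hk
        exact (hcon k (by omega) (ih (by omega))).2
    have := (hcon (K - 1) (by omega) (hall (K - 1) (by omega))).1
    omega
  obtain ⟨k, hk, hz0, hznext⟩ := hlast
  obtain ⟨a1, a2, a3, a4⟩ := hαβ k hk
  obtain ⟨hτk, hτc⟩ := hτ k hk
  have hτL := hsub k hk _ hτk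
  have hw5 : 0 ≤ w * (5 * ρ + D) := by positivity
  have hzle : (h (τ k)) 1 - (-ρ + (k : ℝ) * D) ≤ D + w * (5 * ρ + D) := by
    by_cases hk1 : k + 1 < K
    · have h1 := hznext hk1
      obtain ⟨b1, b2, b3, b4⟩ := hαβ (k + 1) hk1
      obtain ⟨c1, c2⟩ := hβα k hk1
      obtain ⟨hτk1, -⟩ := hτ (k + 1) hk1
      have h2 := hh (τ k) hτL (τ (k + 1)) (hsub _ hk1 _ hτk1)
      have h3 := crossing_c (h (τ k) - h (τ (k + 1))) 1
      have h4 : |τ k - τ (k + 1)| ≤ 5 * ρ + D := by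
        rw [abs_le]
        constructor
        · linarith [hτk.1, hτk1.2]
        · linarith [hτk.2, hτk1.1]
      have h5 : w * |τ k - τ (k + 1)| ≤ w * (5 * ρ + D) := mul_le_mul_of_nonneg_left h4 hw
      have h6 : (h (τ k) - h (τ (k + 1))) 1 = (h (τ k)) 1 - (h (τ (k + 1))) 1 := rfl
      rw [h6] at h3
      have h7 := (le_abs_self _).trans (h3.trans (h2.trans h5))
      push_cast at h1
      linarith
    · have hkK : (K : ℝ) ≤ (k : ℝ) + 1 := by
        have : K ≤ k + 1 := by omega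
        exact_mod_cast this
      have h1 := crossing_c (h (τ k)) 1
      have h2 := hρ (τ k) hτL
      have h3 := (abs_le.1 (h1.trans h2)).2
      nlinarith
  have hz2D : (h (τ k)) 1 - (-ρ + (k : ℝ) * D) ≤ 2 * D := by linarith
  -- horizontal bound
  have hhor : ∀ t ∈ Icc (α k) (β k), |(h t) 0| ≤ x k := by
    intro t ht
    have htL := hsub k hk t ht
    have h2 := hh t htL (τ k) hτL
    have h3 := crossing_c (h t - h (τ k)) 1
    have h6 : (h t - h (τ k)) 1 = (h t) 1 - (h (τ k)) 1 := rfl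
    rw [h6] at h3
    have h4 : |t - τ k| ≤ 2 * ρ := by
      rw [abs_le]
      constructor
      · linarith [hτk.2, ht.1]
      · linarith [hτk.1, ht.2]
    have h5 : w * |t - τ k| ≤ w * (2 * ρ) := mul_le_mul_of_nonneg_left h4 hw
    have h7 : w * (2 * ρ) ≤ w * (5 * ρ + D) := mul_le_mul_of_nonneg_left (by linarith) hw
    have h8 : |(h t) 1 - (h (τ k)) 1| ≤ D := by linarith
    rw [abs_le] at h8
    have h9 : |(-ρ + (k : ℝ) * D + D)| - 2 * D ≤ |(h t) 1| := by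
      have e : |(-ρ + (k : ℝ) * D + D) - (h t) 1| ≤ 2 * D := by
        rw [abs_le]
        constructor <;> linarith
      have := abs_sub_abs_le_abs_sub (-ρ + (k : ℝ) * D + D) ((h t) 1)
      linarith
    have h10 : max 0 (|(-ρ + (k : ℝ) * D + D)| - 2 * D) ≤ |(h t) 1| :=
      max_le (abs_nonneg _) h9
    have h11 : (max 0 (|(-ρ + (k : ℝ) * D + D)| - 2 * D)) ^ 2 ≤ ((h t) 1) ^ 2 := by
      rw [← sq_abs ((h t) 1)]
      exact pow_le_pow_left₀ (le_max_left _ _) h10 2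
    have h12 := crossing_nsq (h t)
    have h13 : ‖h t‖ ^ 2 ≤ ρ ^ 2 := pow_le_pow_left₀ (norm_nonneg _) (hρ t htL) 2
    rw [hx]
    apply Real.abs_le_sqrt
    linarith
  -- intermediate value theorem
  have hcB : Continuous B := by
    have : LipschitzWith 1 B := LipschitzWith.of_dist_le_mul (fun s t => by
      rw [dist_eq_norm, Real.dist_eq, NNReal.coe_one, one_mul]; exact hB s t)
    exact this.continuous
  have hch0 : ContinuousOn h (Icc 0 L) := by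
    have : LipschitzOnWith (Real.toNNReal w) h (Icc 0 L) :=
      LipschitzOnWith.of_dist_le_mul (fun s hs t ht => by
        rw [dist_eq_norm, Real.dist_eq, Real.coe_toNNReal w hw]; exact hh s hs t ht)
    exact this.continuousOn
  have hgc : ContinuousOn (fun t => (B t) 0 - (h t) 0) (Icc (α k) (β k)) := by
    have e1 : Continuous (fun t => (B t) 0) := by fun_prop
    have e2 : ContinuousOn (fun t => (h t) 0) (Icc (α k) (β k)) := by
      have e3 : Continuous (fun v : Plane => v 0) := by fun_prop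
      exact e3.comp_continuousOn (hch0.mono (fun t ht => hsub k hk t ht))
    exact e1.continuousOn.sub e2
  have hcross : ∃ t ∈ Icc (α k) (β k), (h t) 0 = (B t) 0 := by
    have hl := abs_le.1 (hhor (α k) ⟨le_rfl, a2⟩)
    have hr := abs_le.1 (hhor (β k) ⟨a2, le_rfl⟩)
    rcases hB0 k hk with ⟨e1, e2⟩ | ⟨e1, e2⟩
    · have := intermediate_value_Icc a2 hgc (show (0 : ℝ) ∈ Icc _ _ from ⟨by
        show (B (α k)) 0 - (h (α k)) 0 ≤ 0
        rw [e1]; linarith, by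
        show 0 ≤ (B (β k)) 0 - (h (β k)) 0
        rw [e2]; linarith⟩)
      obtain ⟨t, ht, ht0⟩ := this
      have ht0' : (B t) 0 - (h t) 0 = 0 := ht0
      exact ⟨t, ht, by linarith⟩
    · have := intermediate_value_Icc' a2 hgc (show (0 : ℝ) ∈ Icc _ _ from ⟨by
        show (B (β k)) 0 - (h (β k)) 0 ≤ 0
        rw [e2]; linarith, by
        show 0 ≤ (B (α k)) 0 - (h (α k)) 0
        rw [e1]; linarith⟩)
      obtain ⟨t, ht, ht0⟩ := this
      have ht0' : (B t) 0 - (h t) 0 = 0 := ht0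
      exact ⟨t, ht, by linarith⟩
  refine ⟨τ k, hτL, (h (τ k)) 1 - (-ρ + (k : ℝ) * D), ⟨hz0, hzle⟩, hτc hcross, ?_⟩
  rw [hB1 k hk _ hτk]
  ring

end Pool.Agent.Helper865.Sub
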