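import Pool.Agent.Helper865.Sub.Defs

set_option autoImplicit false

open MeasureTheory Set Filter Topology
open scoped NNReal ENNReal

namespace Pool.Agent.Helper865.Sub


theorem randWindow
    (a b w r D g : ℝ) (hr : 0 < r) (hrD : r ≤ D) (hg0 : 0 ≤ g) (hgD : g ≤ 2 * D)
    (window : ∃ W : ℝ → ℝ → Plane, (∀ t, Continuous fun v => W v t) ∧
      (∀ v s t, ‖W v s - W v t‖ ≤ |s - t|) ∧ (∀ v, ∀ t ≤ a, W v t = 0) ∧
      (∀ v t, b ≤ t → W v t = 0) ∧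
      ∀ h ∈ Paths (0 : Plane) w, ∃ z ∈ Icc 0 g,
        ∀ v ∈ Icc (-(3 * D)) (3 * D), ∃ t : ℝ≥0, a ≤ t ∧ (t : ℝ) ≤ b ∧
          ‖W v t - h t‖ ≤ |v - z|) :
    ∃ W : ℝ → ℝ → Plane, (∀ t, Continuous fun u => W u t) ∧
      (∀ u s t, ‖W u s - W u t‖ ≤ |s - t|) ∧ (∀ u, ∀ t ≤ a, W u t = 0) ∧
      (∀ u t, b ≤ t → W u t = 0) ∧
      ∀ h ∈ Paths (0 : Plane) w, ∃ G : Set ℝ, MeasurableSet G ∧
        ENNReal.ofReal (2 * r / (g + 2 * r)) ≤ (volume.restrict (Icc (0 : ℝ) 1)) G ∧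
        ∀ u ∈ G, ∃ t : ℝ≥0, a ≤ t ∧ (t : ℝ) ≤ b ∧ ‖W u t - h t‖ ≤ r := by
  obtain ⟨W, hWc, hWl, hWa, hWb, hW⟩ := window
  have hL : 0 < g + 2 * r := by linarith
  refine ⟨fun u t => W (-r + u * (g + 2 * r)) t, ?_, ?_, ?_, ?_, ?_⟩
  · intro t
    exact (hWc t).comp (by fun_prop)
  · intro u s t
    exact hWl _ s t
  · intro u t ht
    exact hWa _ t ht
  · intro u t ht
    exact hWb _ t ht
  · intro h hh
    obtain ⟨z, hz, hz2⟩ := hW h hh
    refine ⟨Icc (z / (g + 2 * r)) ((z + 2 * r) / (g + 2 * r)), measurableSet_Icc, ?_, ?_⟩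
    · rw [Measure.restrict_apply measurableSet_Icc]
      have hsub : Icc (z / (g + 2 * r)) ((z + 2 * r) / (g + 2 * r)) ∩ Icc (0 : ℝ) 1 =
          Icc (z / (g + 2 * r)) ((z + 2 * r) / (g + 2 * r)) := by
        apply inter_eq_left.mpr
        apply Icc_subset_Icc
        · exact div_nonneg hz.1 hL.le
        · rw [div_le_one hL]
          linarith [hz.2]
      rw [hsub, Real.volume_Icc]
      apply ENNReal.ofReal_le_ofReal
      rw [← sub_div]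
      apply le_of_eq
      congr 1
      ring
    · intro u hu
      have h1 : z ≤ u * (g + 2 * r) := (div_le_iff₀ hL).mp hu.1
      have h2 : u * (g + 2 * r) ≤ z + 2 * r := (le_div_iff₀ hL).mp hu.2
      obtain ⟨t, ht1, ht2, ht3⟩ := hz2 (-r + u * (g + 2 * r)) ⟨by linarith [hz.1], by linarith [hz.2]⟩
      refine ⟨t, ht1, ht2, ht3.trans ?_⟩
      rw [abs_le]
      constructor <;> linarith

end Pool.Agent.Helper865.Sub
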