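import Pool.Agent.Helper865.Sub.Defs

set_option autoImplicit false

open MeasureTheory Set Filter Topology
open scoped NNReal ENNReal

namespace Pool.Agent.Helper865.Sub


/-- the initial part of the path -/
noncomputable def multi_st (A : Plane) (t : ℝ) : Plane := (max 0 (1 - t / ‖A‖)) • A

theorem multi_st_lip (A : Plane) (s t : ℝ) : ‖multi_st A s - multi_st A t‖ ≤ |s - t| := by
  unfold multi_st
  rw [← sub_smul, norm_smul]
  by_cases hA : A = 0
  · rw [hA, norm_zero, mul_zero]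
    exact abs_nonneg _
  have ha : 0 < ‖A‖ := norm_pos_iff.2 hA
  have h1 : |max 0 (1 - s / ‖A‖) - max 0 (1 - t / ‖A‖)| ≤
      |(1 - s / ‖A‖) - (1 - t / ‖A‖)| := by
    have h2 := abs_max_sub_max_le_abs (1 - s / ‖A‖) (1 - t / ‖A‖) 0
    rwa [max_comm _ 0, max_comm _ 0] at h2
  rw [Real.norm_eq_abs]
  calc _ ≤ |(1 - s / ‖A‖) - (1 - t / ‖A‖)| * ‖A‖ := mul_le_mul_of_nonneg_right h1 ha.le
    _ = |s - t| := by
      have h3 : (1 - s / ‖A‖) - (1 - t / ‖A‖) = (t - s) / ‖A‖ := by ring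
      rw [h3, abs_div, abs_of_pos ha, abs_sub_comm]
      field_simp

theorem multi_st_zero (A : Plane) (t : ℝ) (ht : ‖A‖ ≤ t) : multi_st A t = 0 := by
  unfold multi_st
  by_cases hA : A = 0
  · rw [hA, smul_zero]
  have ha : 0 < ‖A‖ := norm_pos_iff.2 hA
  have h1 : 1 ≤ t / ‖A‖ := by
    rw [le_div_iff₀ ha]
    linarith
  rw [max_eq_left (by linarith), zero_smul]

theorem multi_glue {f g : ℝ → Plane} {c : ℝ} (hf : ∀ s t, ‖f s - f t‖ ≤ |s - t|)
    (hg : ∀ s t, ‖g s - g t‖ ≤ |s - t|) (hf0 : ∀ t, c ≤ t → f t = 0)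
    (hg0 : ∀ t, t ≤ c → g t = 0) (s t : ℝ) : ‖(f s + g s) - (f t + g t)‖ ≤ |s - t| := by
  have key : ∀ s t : ℝ, s ≤ t → ‖(f s + g s) - (f t + g t)‖ ≤ |s - t| := by
    intro s t hst
    rcases le_total t c with h | h
    · rw [hg0 s (hst.trans h), hg0 t h, add_zero, add_zero]
      exact hf s t
    · rcases le_total c s with h' | h'
      · rw [hf0 s h', hf0 t h, zero_add, zero_add]
        exact hg s t
      · rw [hg0 s h', hf0 t h, add_zero, zero_add]
        have e : f s - g t = (f s - f c) + (g c - g t) := by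
          rw [hf0 c le_rfl, hg0 c le_rfl]
          abel
        rw [e]
        refine (norm_add_le _ _).trans ((add_le_add (hf s c) (hg c t)).trans ?_)
        rw [abs_of_nonpos (by linarith), abs_of_nonpos (by linarith), abs_of_nonpos (by linarith)]
        linarith
  rcases le_total s t with h | h
  · exact key s t h
  · rw [norm_sub_rev, abs_sub_comm]
    exact key t s h

theorem multi_sum (A : Plane) (T : ℕ → ℝ) (hT0 : T 0 = ‖A‖) (hT : Monotone T)
    (V : ℕ → ℝ → Plane) (hL : ∀ j s t, ‖V j s - V j t‖ ≤ |s - t|)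
    (h0 : ∀ j, ∀ t ≤ T j, V j t = 0) (h1 : ∀ j t, T (j + 1) ≤ t → V j t = 0) (m : ℕ) :
    (∀ s t, ‖(multi_st A s + ∑ j ∈ Finset.range m, V j s) -
      (multi_st A t + ∑ j ∈ Finset.range m, V j t)‖ ≤ |s - t|) ∧
    ∀ t, T m ≤ t → multi_st A t + ∑ j ∈ Finset.range m, V j t = 0 := by
  induction m with
  | zero =>
    refine ⟨fun s t => ?_, fun t ht => ?_⟩
    · rw [Finset.sum_range_zero, Finset.sum_range_zero, add_zero, add_zero]
      exact multi_st_lip A s t
    · rw [Finset.sum_range_zero, add_zero]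
      exact multi_st_zero A t (hT0 ▸ ht)
  | succ m ih =>
    refine ⟨fun s t => ?_, fun t ht => ?_⟩
    · rw [Finset.sum_range_succ, Finset.sum_range_succ, ← add_assoc, ← add_assoc]
      exact multi_glue (f := fun s => multi_st A s + ∑ j ∈ Finset.range m, V j s) (g := V m)
        ih.1 (hL m) ih.2 (h0 m) s t
    · rw [Finset.sum_range_succ, ← add_assoc, ih.2 t ((hT (Nat.le_succ m)).trans ht),
        h1 m t ht, add_zero]

theorem multi_val (A : Plane) (T : ℕ → ℝ) (hT0 : T 0 = ‖A‖) (hT : Monotone T)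
    (V : ℕ → ℝ → Plane)
    (h0 : ∀ j, ∀ t ≤ T j, V j t = 0) (h1 : ∀ j t, T (j + 1) ≤ t → V j t = 0) (N j : ℕ)
    (hj : j < N) (t : ℝ) (ht : T j ≤ t) (ht' : t ≤ T (j + 1)) :
    multi_st A t + ∑ i ∈ Finset.range N, V i t = V j t := by
  rw [multi_st_zero A t (by rw [← hT0]; exact (hT (Nat.zero_le j)).trans ht), zero_add]
  refine Finset.sum_eq_single j (fun i _ hi => ?_) (fun h => absurd (Finset.mem_range.2 hj) h)
  rcases lt_or_gt_of_ne hi with h | h
  · exact h1 i t ((hT h).trans ht)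
  · exact h0 i t (ht'.trans (hT h))



theorem multi (r w : ℝ) (A : Plane) (hw : 0 < w) (N : ℕ) (T : ℕ → ℝ)
    (hT0 : T 0 = ‖A‖) (hT : Monotone T) (p : ℕ → ℝ) (hp : ∀ j, 0 ≤ p j ∧ p j ≤ 1)
    (hW : ∀ j < N, ∃ W : ℝ → ℝ → Plane, (∀ t, Continuous fun u => W u t) ∧
      (∀ u s t, ‖W u s - W u t‖ ≤ |s - t|) ∧ (∀ u, ∀ t ≤ T j, W u t = 0) ∧
      (∀ u t, T (j + 1) ≤ t → W u t = 0) ∧
      ∀ h ∈ Paths (0 : Plane) w, ∃ G : Set ℝ, MeasurableSet G ∧
        ENNReal.ofReal (p j) ≤ (volume.restrict (Icc (0 : ℝ) 1)) G ∧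
        ∀ u ∈ G, ∃ t : ℝ≥0, T j ≤ t ∧ (t : ℝ) ≤ T (j + 1) ∧ ‖W u t - h t‖ ≤ r) :
    ENNReal.ofReal (1 - ∏ j ∈ Finset.range N, (1 - p j)) ≤ value r w A := by
  classical
  choose W hWc hWL hW0 hW1 hWG using hW
  obtain ⟨V, hV⟩ : ∃ V : (Fin N → ℝ) → ℕ → ℝ → Plane, V = fun u j t =>
    if h : j < N then W j h (u ⟨j, h⟩) t else 0 := ⟨_, rfl⟩
  have hV1 : ∀ u j (h : j < N) t, V u j t = W j h (u ⟨j, h⟩) t := by
    intro u j h t
    rw [hV]
    exact dif_pos h
  have hV2 : ∀ u j, ¬ j < N → ∀ t, V u j t = 0 := by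
    intro u j h t
    rw [hV]
    exact dif_neg h
  have hVL : ∀ u j s t, ‖V u j s - V u j t‖ ≤ |s - t| := by
    intro u j s t
    by_cases h : j < N
    · rw [hV1 u j h, hV1 u j h]
      exact hWL j h _ s t
    · rw [hV2 u j h, hV2 u j h, sub_self, norm_zero]
      exact abs_nonneg _
  have hV0 : ∀ u j, ∀ t ≤ T j, V u j t = 0 := by
    intro u j t ht
    by_cases h : j < N
    · rw [hV1 u j h]
      exact hW0 j h _ t ht
    · exact hV2 u j h t
  have hVT : ∀ u j t, T (j + 1) ≤ t → V u j t = 0 := by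
    intro u j t ht
    by_cases h : j < N
    · rw [hV1 u j h]
      exact hW1 j h _ t ht
    · exact hV2 u j h t
  have hVc : ∀ j t, Continuous fun u => V u j t := by
    intro j t
    by_cases h : j < N
    · have e : (fun u => V u j t) = fun u => W j h (u ⟨j, h⟩) t := funext fun u => hV1 u j h t
      rw [e]
      exact (hWc j h t).comp (continuous_apply _)
    · have e : (fun u => V u j t) = fun _ => 0 := funext fun u => hV2 u j h t
      rw [e]
      exact continuous_const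
  have hpath : ∀ u, (fun t : ℝ≥0 => multi_st A t + ∑ j ∈ Finset.range N, V u j t) ∈
      Paths A 1 := by
    intro u
    refine ⟨?_, fun s t => ?_⟩
    · show multi_st A ((0 : ℝ≥0) : ℝ) + ∑ j ∈ Finset.range N, V u j ((0 : ℝ≥0) : ℝ) = A
      rw [NNReal.coe_zero, Finset.sum_eq_zero (fun j _ => hV0 u j 0 ?_), add_zero]
      · unfold multi_st
        rw [zero_div, sub_zero, max_eq_right zero_le_one, one_smul]
      · refine le_trans ?_ (hT (Nat.zero_le j))
        rw [hT0]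
        exact norm_nonneg A
    · rw [one_mul]
      exact (multi_sum A T hT0 hT (V u) (hVL u) (hV0 u) (hVT u) N).1 s t
  obtain ⟨Φ, hΦ⟩ : ∃ Φ : (Fin N → ℝ) → Paths A 1, Φ = fun u =>
    ⟨fun t : ℝ≥0 => multi_st A t + ∑ j ∈ Finset.range N, V u j t, hpath u⟩ := ⟨_, rfl⟩
  have hΦm : Measurable Φ := by
    rw [hΦ]
    refine Measurable.subtype_mk (measurable_pi_iff.2 fun t => ?_)
    exact (continuous_const.add (continuous_finsetSum _ fun j _ => hVc j t)).measurable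
  have hprob : IsProbabilityMeasure (volume.restrict (Icc (0 : ℝ) 1)) := ⟨by simp⟩
  obtain ⟨P, hP⟩ : ∃ P : Measure (Fin N → ℝ),
    P = Measure.pi (fun _ => volume.restrict (Icc (0 : ℝ) 1)) := ⟨_, rfl⟩
  have hPp : IsProbabilityMeasure P := by
    rw [hP]
    infer_instance
  have hmap : IsProbabilityMeasure (P.map Φ) := Measure.isProbabilityMeasure_map hΦm.aemeasurable
  unfold value
  refine le_trans ?_ (le_iSup (fun μ : ProbabilityMeasure (Paths A 1) =>
    ⨅ h : Paths (0 : Plane) w, (μ : Measure (Paths A 1))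
      {σ | Captured r (σ : ℝ≥0 → Plane) (h : ℝ≥0 → Plane)}) ⟨P.map Φ, hmap⟩)
  refine le_iInf fun h => ?_
  show _ ≤ (P.map Φ) {σ | Captured r (σ : ℝ≥0 → Plane) (h : ℝ≥0 → Plane)}
  refine le_trans ?_ (Measure.le_map_apply hΦm.aemeasurable _)
  choose G hGm hGp hGt using fun j (hj : j < N) => hWG j hj h.1 h.2
  have hsub : (Set.pi Set.univ (fun j : Fin N => (G j.1 j.2)ᶜ))ᶜ ⊆
      Φ ⁻¹' {σ | Captured r (σ : ℝ≥0 → Plane) (h : ℝ≥0 → Plane)} := by
    intro u hu
    rw [Set.mem_compl_iff, Set.mem_univ_pi] at hu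
    push Not at hu
    obtain ⟨j, hj⟩ := hu
    rw [Set.mem_compl_iff, not_not] at hj
    obtain ⟨t, ht1, ht2, ht3⟩ := hGt j.1 j.2 (u j) hj
    refine ⟨t, ?_⟩
    rw [hΦ]
    show ‖(multi_st A t + ∑ i ∈ Finset.range N, V u i t) - h.1 t‖ ≤ r
    rw [multi_val A T hT0 hT (V u) (hV0 u) (hVT u) N j.1 j.2 t ht1 ht2, hV1 u j.1 j.2]
    exact ht3
  refine le_trans ?_ (measure_mono hsub)
  have hms : MeasurableSet (Set.pi Set.univ (fun j : Fin N => (G j.1 j.2)ᶜ)) :=
    MeasurableSet.univ_pi fun j => (hGm j.1 j.2).compl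
  rw [prob_compl_eq_one_sub hms, hP, Measure.pi_pi]
  have h1 : ∏ j : Fin N, (volume.restrict (Icc (0 : ℝ) 1)) (G j.1 j.2)ᶜ ≤
      ENNReal.ofReal (∏ j ∈ Finset.range N, (1 - p j)) := by
    rw [← Fin.prod_univ_eq_prod_range (fun j => 1 - p j) N,
      ENNReal.ofReal_prod_of_nonneg (fun j _ => by linarith [(hp j).2])]
    refine Finset.prod_le_prod' fun j _ => ?_
    rw [prob_compl_eq_one_sub (hGm j.1 j.2), ENNReal.ofReal_sub _ (hp j).1, ENNReal.ofReal_one]
    exact tsub_le_tsub_left (hGp j.1 j.2) 1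
  have hprod : 0 ≤ ∏ j ∈ Finset.range N, (1 - p j) :=
    Finset.prod_nonneg fun j _ => by linarith [(hp j).2]
  rw [ENNReal.ofReal_sub _ hprod, ENNReal.ofReal_one]
  exact tsub_le_tsub_left h1 1

end Pool.Agent.Helper865.Sub
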