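import Pool.Agent.Helper865.Sub.Defs

set_option autoImplicit false

open MeasureTheory Set Filter Topology
open scoped NNReal ENNReal

namespace Pool.Agent.Helper865.Sub


theorem value_le_one (r w : ℝ) (A : Plane) (hw : 0 < w) : value r w A ≤ 1 := by
  unfold value
  refine iSup_le fun μ => ?_
  have h0 : (fun _ : ℝ≥0 => (0 : Plane)) ∈ Paths (0 : Plane) w := by
    refine ⟨rfl, fun s t => ?_⟩
    simp only [sub_self, norm_zero]
    positivity
  refine le_trans (iInf_le _ (⟨fun _ => 0, h0⟩ : Paths (0 : Plane) w)) ?_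
  exact prob_le_one

theorem certain_aux (a s t : ℝ) :
    |max 0 (a - s) - max 0 (a - t)| + |max a s - max a t| ≤ |s - t| := by
  rcases le_total s a with h1 | h1 <;> rcases le_total t a with h2 | h2
  · rw [max_eq_right (by linarith : (0 : ℝ) ≤ a - s), max_eq_right (by linarith : (0 : ℝ) ≤ a - t),
      max_eq_left h1, max_eq_left h2]
    have : a - s - (a - t) = -(s - t) := by ring
    rw [this, abs_neg, sub_self, abs_zero, add_zero]
  · rw [max_eq_right (by linarith : (0 : ℝ) ≤ a - s), max_eq_left (by linarith : a - t ≤ (0 : ℝ)),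
      max_eq_left h1, max_eq_right h2, sub_zero, abs_of_nonneg (by linarith : (0 : ℝ) ≤ a - s),
      abs_of_nonpos (by linarith : a - t ≤ (0 : ℝ)), abs_of_nonpos (by linarith : s - t ≤ (0 : ℝ))]
    linarith
  · rw [max_eq_left (by linarith : a - s ≤ (0 : ℝ)), max_eq_right (by linarith : (0 : ℝ) ≤ a - t),
      max_eq_right h1, max_eq_left h2, zero_sub, abs_neg,
      abs_of_nonneg (by linarith : (0 : ℝ) ≤ a - t),
      abs_of_nonneg (by linarith : (0 : ℝ) ≤ s - a), abs_of_nonneg (by linarith : (0 : ℝ) ≤ s - t)]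
    linarith
  · rw [max_eq_left (by linarith : a - s ≤ (0 : ℝ)), max_eq_left (by linarith : a - t ≤ (0 : ℝ)),
      max_eq_right h1, max_eq_right h2, sub_self, abs_zero, zero_add]

theorem certain_phi (A : Plane) (s t : ℝ) :
    ‖(max 0 (1 - s / ‖A‖)) • A - (max 0 (1 - t / ‖A‖)) • A‖ ≤
      |max 0 (‖A‖ - s) - max 0 (‖A‖ - t)| := by
  rw [← sub_smul, norm_smul, Real.norm_eq_abs]
  by_cases hA : ‖A‖ = 0
  · rw [hA, mul_zero]
    exact abs_nonneg _
  · have hpos : 0 < ‖A‖ := lt_of_le_of_ne (norm_nonneg _) (Ne.symm hA)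
    have e : ∀ s : ℝ, max 0 (1 - s / ‖A‖) * ‖A‖ = max 0 (‖A‖ - s) := by
      intro s
      rw [max_mul_of_nonneg _ _ hpos.le, zero_mul]
      congr 1
      field_simp
    rw [← e s, ← e t, ← sub_mul, abs_mul, abs_of_pos hpos]

theorem certain (r w g D b : ℝ) (A : Plane) (hw : 0 < w) (hg0 : 0 ≤ g) (hgD : g ≤ 2 * D)
    (hgr : g ≤ 2 * r)
    (window : ∃ W : ℝ → ℝ → Plane, (∀ t, Continuous fun v => W v t) ∧
      (∀ v s t, ‖W v s - W v t‖ ≤ |s - t|) ∧ (∀ v, ∀ t ≤ ‖A‖, W v t = 0) ∧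
      (∀ v t, b ≤ t → W v t = 0) ∧
      ∀ h ∈ Paths (0 : Plane) w, ∃ z ∈ Icc 0 g,
        ∀ v ∈ Icc (-(3 * D)) (3 * D), ∃ t : ℝ≥0, ‖A‖ ≤ t ∧ (t : ℝ) ≤ b ∧
          ‖W v t - h t‖ ≤ |v - z|) :
    value r w A = 1 := by
  refine le_antisymm (value_le_one r w A hw) ?_
  obtain ⟨W, _, hWl, hW0, _, hcap⟩ := window
  have hWm : ∀ s : ℝ, W (g / 2) s = W (g / 2) (max ‖A‖ s) := by
    intro s
    rcases le_total s ‖A‖ with h | h
    · rw [max_eq_left h, hW0 _ _ h, hW0 _ _ le_rfl]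
    · rw [max_eq_right h]
  have hσ : (fun t : ℝ≥0 => (max 0 (1 - (t : ℝ) / ‖A‖)) • A + W (g / 2) t) ∈ Paths A 1 := by
    refine ⟨?_, fun s t => ?_⟩
    · simp only [NNReal.coe_zero, zero_div, sub_zero]
      rw [hW0 _ _ (norm_nonneg A), max_eq_right (by norm_num : (0 : ℝ) ≤ 1), one_smul, add_zero]
    · have e : (max 0 (1 - (s : ℝ) / ‖A‖)) • A + W (g / 2) s -
          ((max 0 (1 - (t : ℝ) / ‖A‖)) • A + W (g / 2) t) =
          ((max 0 (1 - (s : ℝ) / ‖A‖)) • A - (max 0 (1 - (t : ℝ) / ‖A‖)) • A) +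
          (W (g / 2) s - W (g / 2) t) := by abel
      rw [e, one_mul]
      refine le_trans (norm_add_le _ _) ?_
      have h1 := certain_phi A s t
      have h2 : ‖W (g / 2) s - W (g / 2) t‖ ≤ |max ‖A‖ (s : ℝ) - max ‖A‖ (t : ℝ)| := by
        rw [hWm s, hWm t]
        exact hWl _ _ _
      have h3 := certain_aux ‖A‖ s t
      linarith
  unfold value
  refine le_iSup_of_le (⟨Measure.dirac (⟨_, hσ⟩ : Paths A 1), inferInstance⟩ :
    ProbabilityMeasure (Paths A 1)) ?_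
  refine le_iInf fun h => ?_
  obtain ⟨z, hz, hz2⟩ := hcap h h.2
  obtain ⟨t, ht1, ht2, ht3⟩ := hz2 (g / 2) ⟨by linarith, by linarith⟩
  have hmem : (⟨_, hσ⟩ : Paths A 1) ∈
      {σ : Paths A 1 | Captured r (σ : ℝ≥0 → Plane) (h : ℝ≥0 → Plane)} := by
    refine ⟨t, ?_⟩
    show ‖(max 0 (1 - (t : ℝ) / ‖A‖)) • A + W (g / 2) t - (h : ℝ≥0 → Plane) t‖ ≤ r
    have e0 : (max 0 (1 - (t : ℝ) / ‖A‖)) • A = 0 := by
      by_cases hA : ‖A‖ = 0
      · rw [norm_eq_zero.mp hA, smul_zero]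
      · have hpos : 0 < ‖A‖ := lt_of_le_of_ne (norm_nonneg _) (Ne.symm hA)
        have : 1 ≤ (t : ℝ) / ‖A‖ := by
          rw [le_div_iff₀ hpos, one_mul]
          exact ht1
        rw [max_eq_left (by linarith), zero_smul]
    rw [e0, zero_add]
    refine le_trans ht3 ?_
    rw [abs_le]
    obtain ⟨hz0, hz1⟩ := hz
    constructor <;> linarith
  show (1 : ℝ≥0∞) ≤ Measure.dirac (⟨_, hσ⟩ : Paths A 1)
    {σ : Paths A 1 | Captured r (σ : ℝ≥0 → Plane) (h : ℝ≥0 → Plane)}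
  rw [Measure.dirac_apply_of_mem hmem]

end Pool.Agent.Helper865.Sub
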