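import Pool.Agent.Helper865.Sub.Defs

set_option autoImplicit false

open MeasureTheory Set Filter Topology
open scoped NNReal ENNReal

namespace Pool.Agent.Helper865.Sub


theorem path_cont {A V : Plane} (σ : Paths A 1) :
    Continuous (fun t : ℝ≥0 => ‖(σ : ℝ≥0 → Plane) t - (t : ℝ) • V‖) := by
  have h1 : Continuous (σ : ℝ≥0 → Plane) := by
    have : LipschitzWith 1 (σ : ℝ≥0 → Plane) := by
      refine LipschitzWith.of_dist_le_mul ?_
      intro s t
      rw [dist_eq_norm, NNReal.dist_eq]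
      exact σ.2.2 s t
    exact this.continuous
  exact (h1.sub ((NNReal.continuous_coe).smul continuous_const)).norm

theorem captured_iff (r : ℝ) (A V : Plane) (σ : Paths A 1) :
    Captured r (σ : ℝ≥0 → Plane) (fun t => (t : ℝ) • V) ↔
      ∃ n : ℕ, ∀ m : ℕ, ∃ k : ℕ, (TopologicalSpace.denseSeq ℝ≥0 k < (n : ℝ≥0) + 1 ∧
        ‖(σ : ℝ≥0 → Plane) (TopologicalSpace.denseSeq ℝ≥0 k) -
          ((TopologicalSpace.denseSeq ℝ≥0 k : ℝ≥0) : ℝ) • V‖ < r + 1 / ((m : ℝ) + 1)) := by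
  constructor
  · rintro ⟨t, ht⟩
    obtain ⟨n, hn⟩ := exists_nat_ge t
    refine ⟨n, fun m => ?_⟩
    have ho : IsOpen {s : ℝ≥0 | s < (n : ℝ≥0) + 1 ∧
        ‖(σ : ℝ≥0 → Plane) s - (s : ℝ) • V‖ < r + 1 / ((m : ℝ) + 1)} :=
      (isOpen_lt continuous_id continuous_const).inter (isOpen_lt (path_cont σ) continuous_const)
    have hne : ({s : ℝ≥0 | s < (n : ℝ≥0) + 1 ∧
        ‖(σ : ℝ≥0 → Plane) s - (s : ℝ) • V‖ < r + 1 / ((m : ℝ) + 1)}).Nonempty := by
      refine ⟨t, lt_of_le_of_lt hn (lt_add_one _), lt_of_le_of_lt ht ?_⟩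
      have : (0 : ℝ) < 1 / ((m : ℝ) + 1) := by positivity
      linarith
    obtain ⟨s, hs⟩ := (TopologicalSpace.denseRange_denseSeq ℝ≥0).exists_mem_open ho hne
    exact ⟨s, hs⟩
  · rintro ⟨n, h⟩
    have hc : IsCompact (Set.Icc (0 : ℝ≥0) ((n : ℝ≥0) + 1)) := isCompact_Icc
    obtain ⟨t, ht, hmin⟩ := hc.exists_isMinOn ⟨0, by simp⟩
      (path_cont (V := V) σ).continuousOn
    refine ⟨t, ?_⟩
    refine le_of_forall_pos_lt_add ?_
    intro ε hε
    obtain ⟨m, hm⟩ := exists_nat_one_div_lt hε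
    obtain ⟨k, hk1, hk2⟩ := h m
    have h3 := hmin (a := TopologicalSpace.denseSeq ℝ≥0 k) ⟨zero_le, hk1.le⟩
    have h4 : ‖(σ : ℝ≥0 → Plane) t - (t : ℝ) • V‖ ≤
        ‖(σ : ℝ≥0 → Plane) (TopologicalSpace.denseSeq ℝ≥0 k) -
          ((TopologicalSpace.denseSeq ℝ≥0 k : ℝ≥0) : ℝ) • V‖ := h3
    linarith

theorem measCaptured (r : ℝ) (A : Plane) :
    MeasurableSet {p : (Paths A 1) × Plane |
      Captured r (p.1 : ℝ≥0 → Plane) (fun t => (t : ℝ) • p.2)} := by
  simp only [captured_iff, Set.ofPred_exists, Set.ofPred_forall]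
  refine MeasurableSet.iUnion fun n => MeasurableSet.iInter fun m => MeasurableSet.iUnion fun k => ?_
  refine MeasurableSet.inter (MeasurableSet.const _) ?_
  have h1 : Measurable (fun p : (Paths A 1) × Plane =>
      (p.1 : ℝ≥0 → Plane) (TopologicalSpace.denseSeq ℝ≥0 k)) :=
    (measurable_pi_apply _).comp (measurable_subtype_coe.comp measurable_fst)
  have h2 : Measurable (fun p : (Paths A 1) × Plane =>
      ((TopologicalSpace.denseSeq ℝ≥0 k : ℝ≥0) : ℝ) • p.2) :=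
    (measurable_const_smul ((TopologicalSpace.denseSeq ℝ≥0 k : ℝ≥0) : ℝ)).comp measurable_snd
  exact measurableSet_lt (h1.sub h2).norm measurable_const

end Pool.Agent.Helper865.Sub
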