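import Pool.Agent.Helper865.Sub.Defs

set_option autoImplicit false

open MeasureTheory Set Filter Topology
open scoped NNReal ENNReal

namespace Pool.Agent.Helper865.Sub


theorem paramA (e : ℝ) (he : 0 < e) :
    ∃ w₀ : ℝ, 0 < w₀ ∧ ∀ w r R : ℝ, 0 < w → w ≤ w₀ → 0 < r → 0 < R →
      2 * r / (Real.pi * R * w ^ 2) < 1 →
      r < R ∧
      (Real.pi * (r / ((R - r) / (1 + w))) ^ 2
          + 2 * r * (1 + w + r / ((R - r) / (1 + w))) / ((R - r) / (1 + w)))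
        / (Real.pi * w ^ 2) ≤ (1 + e) * (2 * r / (Real.pi * R * w ^ 2)) := by
  have hpi3 : 3 < Real.pi := Real.pi_gt_three
  have hpi4 : Real.pi ≤ 4 := Real.pi_le_four
  refine ⟨min (1/10) (e/100), by positivity, ?_⟩
  intro w r R hw hw0 hr hR hx
  have hw1 : w ≤ 1/10 := le_trans hw0 (min_le_left _ _)
  have hw2 : w ≤ e/100 := le_trans hw0 (min_le_right _ _)
  have hden : 0 < Real.pi * R * w ^ 2 := by positivity
  rw [div_lt_one hden] at hx
  have hww : 0 < w ^ 2 := by positivity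
  have h1 : 2 * r < 4 * R * w ^ 2 := by
    have : Real.pi * R * w ^ 2 ≤ 4 * R * w ^ 2 := by
      have : Real.pi * (R * w ^ 2) ≤ 4 * (R * w ^ 2) :=
        mul_le_mul_of_nonneg_right hpi4 (by positivity)
      linarith
    linarith
  have hw3 : w ^ 2 ≤ w / 10 := by nlinarith
  obtain ⟨q, hq⟩ : ∃ q, q = r / R := ⟨_, rfl⟩
  have hrq : r = q * R := by rw [hq]; field_simp
  have hq0 : 0 < q := by rw [hq]; positivity
  have hq1 : q < 2 * w ^ 2 := by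
    rw [hrq] at h1
    by_contra hc
    push Not at hc
    nlinarith
  have hq2 : q ≤ w / 5 := by linarith
  have hq3 : q ≤ 1 / 50 := by linarith
  have hrR : r < R := by rw [hrq]; nlinarith
  refine ⟨hrR, ?_⟩
  have hq1' : 0 < 1 - q := by linarith
  obtain ⟨ρ, hρ⟩ : ∃ ρ, ρ = q * (1 + w) / (1 - q) := ⟨_, rfl⟩
  have hRr : R - r = R * (1 - q) := by rw [hrq]; ring
  have e1 : r / ((R - r) / (1 + w)) = ρ := by
    rw [hRr, hρ, hrq]; field_simp
  have e2 : 2 * r * (1 + w + ρ) / ((R - r) / (1 + w)) = 2 * ρ * (1 + w + ρ) := by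
    rw [← e1]; field_simp
  rw [e1, e2]
  have e3 : (1 + e) * (2 * r / (Real.pi * R * w ^ 2)) = (1 + e) * (2 * q) / (Real.pi * w ^ 2) := by
    rw [hrq]; field_simp
  rw [e3]
  apply div_le_div_of_nonneg_right _ (by positivity)
  have hρ0 : 0 < ρ := by rw [hρ]; positivity
  have hρq : ρ * (1 - q) = q * (1 + w) := by rw [hρ]; field_simp
  have h2 : Real.pi * ρ ^ 2 ≤ 4 * ρ ^ 2 := mul_le_mul_of_nonneg_right hpi4 (by positivity)
  -- 6 ρ² + 2 ρ (1+w) ≤ 2 (1+e) q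
  have key : 6 * ρ ^ 2 + 2 * ρ * (1 + w) ≤ (1 + e) * (2 * q) := by
    have hs : 0 < (1 - q) ^ 2 := by positivity
    have h3 : (6 * ρ ^ 2 + 2 * ρ * (1 + w)) * (1 - q) ^ 2 = 2 * q * ((1 + w) ^ 2 * (1 + 2 * q)) := by
      have : ρ ^ 2 * (1 - q) ^ 2 = (q * (1 + w)) ^ 2 := by rw [← hρq]; ring
      calc (6 * ρ ^ 2 + 2 * ρ * (1 + w)) * (1 - q) ^ 2
          = 6 * (ρ ^ 2 * (1 - q) ^ 2) + 2 * (ρ * (1 - q)) * (1 + w) * (1 - q) := by ring
        _ = _ := by rw [this, hρq]; ring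
    have h4 : (1 + w) ^ 2 * (1 + 2 * q) ≤ (1 + e) * (1 - q) ^ 2 := by
      have a1 : (1 + w) ^ 2 ≤ 1 + 21/10 * w := by nlinarith
      have a2 : (1 + 2 * q) ≤ (1 + 5 * q) * (1 - q) ^ 2 := by nlinarith [mul_pos hq0 hq0, mul_pos (mul_pos hq0 hq0) hq0]
      have a3 : (1 + 21/10 * w) * (1 + 5 * q) ≤ 1 + e := by
        have : (1 + 21/10 * w) * (1 + 5 * q) ≤ (1 + 21/10 * w) * (1 + w) :=
          mul_le_mul_of_nonneg_left (by linarith) (by positivity)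
        nlinarith
      calc (1 + w) ^ 2 * (1 + 2 * q) ≤ (1 + 21/10 * w) * ((1 + 5 * q) * (1 - q) ^ 2) :=
            mul_le_mul a1 a2 (by positivity) (by positivity)
        _ = ((1 + 21/10 * w) * (1 + 5 * q)) * (1 - q) ^ 2 := by ring
        _ ≤ _ := mul_le_mul_of_nonneg_right a3 hs.le
    have h5 : (6 * ρ ^ 2 + 2 * ρ * (1 + w)) * (1 - q) ^ 2 ≤ ((1 + e) * (2 * q)) * (1 - q) ^ 2 := by
      rw [h3]
      calc 2 * q * ((1 + w) ^ 2 * (1 + 2 * q)) ≤ 2 * q * ((1 + e) * (1 - q) ^ 2) :=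
            mul_le_mul_of_nonneg_left h4 (by positivity)
        _ = _ := by ring
    exact le_of_mul_le_mul_right h5 hs
  calc Real.pi * ρ ^ 2 + 2 * ρ * (1 + w + ρ) ≤ 4 * ρ ^ 2 + 2 * ρ * (1 + w + ρ) := by linarith
    _ = 6 * ρ ^ 2 + 2 * ρ * (1 + w) := by ring
    _ ≤ _ := key

end Pool.Agent.Helper865.Sub
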