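import Pool.Agent.Helper865.Sub.Defs

set_option autoImplicit false

open MeasureTheory Set Filter Topology
open scoped NNReal ENNReal

namespace Pool.Agent.Helper865.Sub


theorem paramB_q (ε q : ℝ) (hε : 0 < ε) (hε1 : ε ≤ 1 / 40) (hq : q = 1 + ε) :
    1 < q ∧ q ≤ 41 / 40 ∧ q ^ 2 ≤ 1.06 ∧ 1 ≤ q ^ 2 ∧ q ^ 3 ≤ 2 ∧ 1 ≤ q ^ 3 := by
  have hq1 : 1 < q := by rw [hq]; linarith
  have hq2 : q ≤ 41 / 40 := by rw [hq]; linarith
  refine ⟨hq1, hq2, ?_, one_le_pow₀ hq1.le, ?_, one_le_pow₀ hq1.le⟩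
  · calc q ^ 2 ≤ (41 / 40) ^ 2 := by gcongr
      _ ≤ 1.06 := by norm_num
  · calc q ^ 3 ≤ (41 / 40) ^ 3 := by gcongr
      _ ≤ 2 := by norm_num

theorem paramB_core (ε q w A c : ℝ) (hε : 0 < ε) (hε1 : ε ≤ 1 / 40) (hq : q = 1 + ε)
    (hw : 0 < w) (hw0 : w ≤ ε ^ 2 / 1000) (hA : A = Real.pi * w ^ 2) (hcε : c * ε = A * q ^ 3) :
    0 < c ∧ 4 * A ≤ c ∧ 5 * w ^ 2 * q ≤ 2 * ε * c ∧ w * c ≤ ε * c ∧ A ≤ ε * c ∧
      c ≤ ε ^ 2 / 1000 ∧ c ≤ w * q := by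
  have hπ3 : (3 : ℝ) < Real.pi := Real.pi_gt_three
  have hπ4 : Real.pi ≤ 4 := Real.pi_le_four
  have hπ0 : (0 : ℝ) < Real.pi := Real.pi_pos
  obtain ⟨hq1, hq2, hqq, hqq1, hq3, hq31⟩ := paramB_q ε q hε hε1 hq
  have hq0 : 0 < q := by linarith
  have hwε : w ≤ ε := by
    have : ε ^ 2 / 1000 ≤ ε := by
      have h : ε ^ 2 ≤ ε * 1 := by rw [sq]; gcongr; linarith
      linarith
    exact hw0.trans this
  have hA0 : 0 < A := by rw [hA]; positivity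
  have hAq : A ≤ A * q ^ 3 := le_mul_of_one_le_right hA0.le hq31
  have hc0 : 0 < c := by
    have h : 0 < c * ε := by rw [hcε]; positivity
    exact (mul_pos_iff_of_pos_right hε).mp h
  refine ⟨hc0, ?_, ?_, mul_le_mul_of_nonneg_right hwε hc0.le, ?_, ?_, ?_⟩
  · have h1 : 4 * A * ε ≤ c * ε := by
      rw [hcε]
      have h2 : 4 * A * ε ≤ 4 * A * (1 / 40) := by gcongr
      linarith
    exact le_of_mul_le_mul_right h1 hε
  · have h1 : 2 * ε * c = w ^ 2 * q * (2 * Real.pi * q ^ 2) := by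
      have h2 : 2 * ε * c = 2 * (c * ε) := by ring
      rw [h2, hcε, hA]; ring
    rw [h1]
    have h2 : (5 : ℝ) ≤ 2 * Real.pi * q ^ 2 := by
      calc (5 : ℝ) ≤ 2 * 3 * 1 := by norm_num
        _ ≤ 2 * Real.pi * q ^ 2 := by gcongr
    calc 5 * w ^ 2 * q = w ^ 2 * q * 5 := by ring
      _ ≤ w ^ 2 * q * (2 * Real.pi * q ^ 2) := by gcongr
  · have h1 : ε * c = A * q ^ 3 := by rw [mul_comm]; exact hcε
    rw [h1]; exact hAq
  · have h1 : c * ε ≤ (ε ^ 2 / 1000) * ε := by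
      rw [hcε, hA]
      have h2 : Real.pi * w ^ 2 * q ^ 3 ≤ 4 * (ε ^ 2 / 1000) ^ 2 * 2 := by gcongr
      have h3 : 4 * (ε ^ 2 / 1000) ^ 2 * 2 = (ε ^ 2 / 1000) * (ε * (8 * ε / 1000)) := by ring
      rw [h3] at h2
      refine h2.trans ?_
      gcongr
      calc ε * (8 * ε / 1000) ≤ ε * 1 := by gcongr; linarith
        _ = ε := mul_one _
    exact le_of_mul_le_mul_right h1 hε
  · have h1 : c * ε ≤ (w * q) * ε := by
      rw [hcε, hA]
      have h2 : Real.pi * w ^ 2 * q ^ 3 = w * q * (Real.pi * w * q ^ 2) := by ring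
      rw [h2]
      have h3 : Real.pi * w * q ^ 2 ≤ 4 * (ε ^ 2 / 1000) * 1.06 := by gcongr
      have h4 : 4 * (ε ^ 2 / 1000) * 1.06 ≤ ε := by
        have h : ε ^ 2 ≤ ε * 1 := by rw [sq]; gcongr; linarith
        linarith
      exact mul_le_mul_of_nonneg_left (h3.trans h4) (by positivity)
    exact le_of_mul_le_mul_right h1 hε

theorem paramB_T (ε q w A c : ℝ) (hε : 0 < ε) (hε1 : ε ≤ 1 / 40) (hq : q = 1 + ε)
    (hw : 0 < w) (hw0 : w ≤ ε ^ 2 / 1000) (hA : A = Real.pi * w ^ 2) (hcε : c * ε = A * q ^ 3)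
    (T : ℝ) (hT : 0 < T) :
    Real.pi * (w * (q * T)) ^ 2 / (c * T) + 100 * (w * (q * T)) + 6 * (c * T) ≤ q * T - T := by
  obtain ⟨hq1, hq2, hqq, hqq1, hq3, hq31⟩ := paramB_q ε q hε hε1 hq
  obtain ⟨hc0, f1, f2, f3, f4, f6, f5⟩ := paramB_core ε q w A c hε hε1 hq hw hw0 hA hcε
  have hq0 : 0 < q := by linarith
  have h1 : Real.pi * (w * (q * T)) ^ 2 / (c * T) = ε / q * T := by
    rw [div_mul_eq_mul_div, div_eq_div_iff (by positivity) hq0.ne']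
    have h : Real.pi * (w * (q * T)) ^ 2 * q = (A * q ^ 3) * T ^ 2 := by rw [hA]; ring
    rw [h, ← hcε]; ring
  have h3 : ε / q ≤ ε - ε ^ 2 / 2 := by
    rw [div_le_iff₀ hq0, hq]
    have h : 0 ≤ ε ^ 2 / 2 * (1 - ε) := by
      have : 0 ≤ 1 - ε := by linarith
      positivity
    nlinarith
  have h4 : 100 * (w * q) ≤ 100 * ((ε ^ 2 / 1000) * (41 / 40)) := by gcongr
  have h5 : 0 ≤ ε ^ 2 := sq_nonneg ε
  have h2 : ε / q + 100 * (w * q) + 6 * c ≤ ε := by linarith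
  rw [h1]
  calc ε / q * T + 100 * (w * (q * T)) + 6 * (c * T)
      = (ε / q + 100 * (w * q) + 6 * c) * T := by ring
    _ ≤ ε * T := by gcongr
    _ = q * T - T := by rw [hq]; ring

theorem paramB_prod (ε q r K : ℝ) (hε : 0 < ε) (hq : q = 1 + ε) (hr : 0 < r) (hK : 0 < K) (N : ℕ)
    (hN : (q⁻¹) ^ N < ε) (g : ℕ → ℝ) (hg0 : ∀ j, 0 ≤ g j) (hg : ∀ j, g j + 2 * r ≤ K * q ^ j) :
    ∏ j ∈ Finset.range N, (1 - 2 * r / (g j + 2 * r))
      ≤ Real.exp (-((2 * r / K) * ((1 - ε) * (q / ε)))) := by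
  have hq1 : 1 < q := by rw [hq]; linarith
  have hq0 : 0 < q := by linarith
  have h1 : ∀ j, 0 ≤ 1 - 2 * r / (g j + 2 * r) := by
    intro j
    have h0 := hg0 j
    rw [sub_nonneg, div_le_one (by linarith)]
    linarith
  have h2 : ∏ j ∈ Finset.range N, (1 - 2 * r / (g j + 2 * r))
      ≤ ∏ j ∈ Finset.range N, Real.exp (-(2 * r / (g j + 2 * r))) :=
    Finset.prod_le_prod (fun j _ => h1 j) (fun j _ => Real.one_sub_le_exp_neg _)
  rw [← Real.exp_sum] at h2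
  refine h2.trans (Real.exp_le_exp.mpr ?_)
  rw [Finset.sum_neg_distrib, neg_le_neg_iff]
  have h3 : ∀ j ∈ Finset.range N, (2 * r / K) * (q⁻¹) ^ j ≤ 2 * r / (g j + 2 * r) := by
    intro j _
    have h0 := hg0 j
    have e : (2 * r / K) * (q⁻¹) ^ j = 2 * r / (K * q ^ j) := by
      rw [inv_pow]; field_simp
    rw [e]
    exact div_le_div_of_nonneg_left (by positivity) (by linarith) (hg j)
  refine le_trans ?_ (Finset.sum_le_sum h3)
  rw [← Finset.mul_sum]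
  have h4 : ∑ j ∈ Finset.range N, (q⁻¹) ^ j = (1 - (q⁻¹) ^ N) * (q / ε) := by
    have hne : q⁻¹ ≠ 1 := by
      intro h
      rw [inv_eq_one] at h
      linarith
    rw [geom_sum_eq hne]
    have e2 : q⁻¹ - 1 = -(ε / q) := by
      rw [hq]; field_simp; ring
    rw [e2, div_neg, ← neg_div, neg_sub, div_div_eq_mul_div, mul_div_assoc]
  rw [h4]
  gcongr

theorem paramB (e : ℝ) (he : 0 < e) (he1 : e < 1) :
    ∃ w₀ : ℝ, 0 < w₀ ∧ ∀ w r R : ℝ, 0 < w → w ≤ w₀ → 0 < r → 0 < R →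
      r < 4 * Real.pi * R * w ^ 2 →
      ∃ (ε c : ℝ) (N : ℕ), 0 < ε ∧ 0 < c ∧ c = Real.pi * w ^ 2 * (1 + ε) ^ 3 / ε ∧
        (∀ T, R ≤ T → r ≤ c * T ∧ c * T ≤ w * ((1 + ε) * T) ∧
          w * (5 * (w * ((1 + ε) * T)) + c * T) ≤ c * T ∧
          Real.pi * (w * ((1 + ε) * T)) ^ 2 / (c * T) + 100 * (w * ((1 + ε) * T))
            + 6 * (c * T) ≤ (1 + ε) * T - T) ∧
        1 - Real.exp (-((1 - e) * (2 * r / (Real.pi * R * w ^ 2))))
          ≤ 1 - ∏ j ∈ Finset.range N, (1 - 2 * r /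
              ((c * (R * (1 + ε) ^ j) + w * (5 * (w * ((1 + ε) * (R * (1 + ε) ^ j)))
                + c * (R * (1 + ε) ^ j))) + 2 * r)) := by
  have hπ0 : (0 : ℝ) < Real.pi := Real.pi_pos
  obtain ⟨ε, hεdef⟩ : ∃ ε : ℝ, ε = e / 40 := ⟨_, rfl⟩
  have hε : 0 < ε := by rw [hεdef]; positivity
  have hε1 : ε ≤ 1 / 40 := by rw [hεdef]; linarith
  have heε : e = 40 * ε := by rw [hεdef]; ring
  obtain ⟨q, hqdef⟩ : ∃ q : ℝ, q = 1 + ε := ⟨_, rfl⟩
  obtain ⟨hq1, hq2, hqq, hqq1, hq3, hq31⟩ := paramB_q ε q hε hε1 hqdef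
  have hq0 : 0 < q := by linarith
  obtain ⟨N, hN⟩ : ∃ N : ℕ, (q⁻¹) ^ N < ε :=
    exists_pow_lt_of_lt_one hε (inv_lt_one_of_one_lt₀ hq1)
  refine ⟨ε ^ 2 / 1000, by positivity, fun w r R hw hw0 hr hR hrR => ?_⟩
  obtain ⟨A, hA⟩ : ∃ A : ℝ, A = Real.pi * w ^ 2 := ⟨_, rfl⟩
  have hA0 : 0 < A := by rw [hA]; positivity
  obtain ⟨c, hc⟩ : ∃ c : ℝ, c = Real.pi * w ^ 2 * (1 + ε) ^ 3 / ε := ⟨_, rfl⟩
  have hcε : c * ε = A * q ^ 3 := by rw [hc, hA, hqdef]; field_simp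
  obtain ⟨hc0, f1, f2, f3, f4, f6, f5⟩ := paramB_core ε q w A c hε hε1 hqdef hw hw0 hA hcε
  have hrA : r ≤ 4 * A * R := by
    rw [hA]
    calc r ≤ 4 * Real.pi * R * w ^ 2 := hrR.le
      _ = 4 * (Real.pi * w ^ 2) * R := by ring
  refine ⟨ε, c, N, hε, hc0, hc, ?_, ?_⟩
  · intro T hT
    have hT0 : 0 < T := lt_of_lt_of_le hR hT
    rw [← hqdef]
    refine ⟨?_, ?_, ?_, paramB_T ε q w A c hε hε1 hqdef hw hw0 hA hcε T hT0⟩
    · calc r ≤ 4 * A * R := hrA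
        _ ≤ c * R := by gcongr
        _ ≤ c * T := by gcongr
    · calc c * T ≤ (w * q) * T := by gcongr
        _ = w * (q * T) := by ring
    · have h1 : w * (5 * (w * (q * T)) + c * T) = (5 * w ^ 2 * q + w * c) * T := by ring
      rw [h1]
      have h2 : 2 * ε * c ≤ (1 / 20) * c := by gcongr; linarith
      have h3 : ε * c ≤ (1 / 40) * c := by gcongr
      have h4 : 5 * w ^ 2 * q + w * c ≤ c := by linarith
      gcongr
  · rw [← hqdef]
    have hg : ∀ j : ℕ, (c * (R * q ^ j) + w * (5 * (w * (q * (R * q ^ j))) + c * (R * q ^ j))) + 2 * r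
        ≤ (c * R * (1 + 11 * ε)) * q ^ j := by
      intro j
      have hqj : 1 ≤ q ^ j := one_le_pow₀ hq1.le
      have h2 : r ≤ 4 * (ε * c) * (R * q ^ j) := by
        calc r ≤ 4 * A * R := hrA
          _ ≤ 4 * (ε * c) * R := by gcongr
          _ = 4 * (ε * c) * (R * 1) := by ring
          _ ≤ 4 * (ε * c) * (R * q ^ j) := by gcongr
      have hT0 : 0 < R * q ^ j := by positivity
      have e1 : (c * R * (1 + 11 * ε)) * q ^ j = (c + 2 * ε * c + ε * c) * (R * q ^ j)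
          + 2 * (4 * (ε * c) * (R * q ^ j)) := by ring
      have e2 : c * (R * q ^ j) + w * (5 * (w * (q * (R * q ^ j))) + c * (R * q ^ j))
          = (c + 5 * w ^ 2 * q + w * c) * (R * q ^ j) := by ring
      rw [e1, e2]
      gcongr
    have hP := paramB_prod ε q r (c * R * (1 + 11 * ε)) hε hqdef hr (by positivity) N hN
      (fun j => c * (R * q ^ j) + w * (5 * (w * (q * (R * q ^ j))) + c * (R * q ^ j)))
      (fun j => by positivity) hg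
    have hfin : (1 - e) * (2 * r / (Real.pi * R * w ^ 2))
        ≤ (2 * r / (c * R * (1 + 11 * ε))) * ((1 - ε) * (q / ε)) := by
      have e1 : 2 * r / (Real.pi * R * w ^ 2) = 2 * r / (R * A) := by rw [hA]; ring_nf
      have e2 : (2 * r / (c * R * (1 + 11 * ε))) * ((1 - ε) * (q / ε))
          = (2 * r / (R * A)) * ((1 - ε) / ((1 + 11 * ε) * q ^ 2)) := by
        have e3 : (2 * r / (c * R * (1 + 11 * ε))) * ((1 - ε) * (q / ε))
          = (2 * r * ((1 - ε) * q)) / (R * (1 + 11 * ε) * (c * ε)) := by field_simp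
        rw [e3, hcε]
        field_simp
      rw [e1, e2, mul_comm]
      have h5 : 1 - e ≤ (1 - ε) / ((1 + 11 * ε) * q ^ 2) := by
        rw [le_div_iff₀ (by positivity), heε, hqdef]
        have h6 : 0 ≤ 1 - 40 * ε := by linarith
        have h7 : (1 + 11 * ε) * (1 + ε) ^ 2 ≤ 1 + 14 * ε := by
          nlinarith [mul_pos hε hε, mul_pos hε (mul_pos hε hε), mul_le_mul_of_nonneg_left hε1 hε.le,
            mul_le_mul_of_nonneg_left hε1 (mul_pos hε hε).le]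
        calc (1 - 40 * ε) * ((1 + 11 * ε) * (1 + ε) ^ 2) ≤ (1 - 40 * ε) * (1 + 14 * ε) := by gcongr
          _ ≤ 1 - ε := by nlinarith [mul_pos hε hε]
      gcongr
    have hexp : Real.exp (-((2 * r / (c * R * (1 + 11 * ε))) * ((1 - ε) * (q / ε))))
        ≤ Real.exp (-((1 - e) * (2 * r / (Real.pi * R * w ^ 2)))) :=
      Real.exp_le_exp.mpr (neg_le_neg hfin)
    have hall := hP.trans hexp
    linarith

end Pool.Agent.Helper865.Sub
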