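import Pool.Agent.Helper865.Sub.Defs

set_option autoImplicit false

open MeasureTheory Set Filter Topology
open scoped NNReal ENNReal

namespace Pool.Agent.Helper865.Sub


theorem paramC (w r R : ℝ) (hw : 0 < w) (hw1 : w ≤ 1 / 2500) (hR : 0 < R)
    (hr : 4 * Real.pi * R * w ^ 2 ≤ r) :
    ∃ D : ℝ, 0 < D ∧ D ≤ w * (2 * R) ∧ w * (5 * (w * (2 * R)) + D) ≤ D ∧
      Real.pi * (w * (2 * R)) ^ 2 / D + 100 * (w * (2 * R)) + 6 * D ≤ 2 * R - R ∧
      D + w * (5 * (w * (2 * R)) + D) ≤ 2 * D ∧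
      D + w * (5 * (w * (2 * R)) + D) ≤ 2 * r := by
  have hpi1 := Real.pi_gt_d2
  have hpi2 := Real.pi_lt_d2
  have hpi := Real.pi_pos
  have hw2 : w ^ 2 ≤ w * (1 / 2500) := by
    have : w ^ 2 = w * w := by ring
    rw [this]
    exact mul_le_mul_of_nonneg_left hw1 hw.le
  have hw20 : 0 < w ^ 2 := by positivity
  have hRw2 : 0 < R * w ^ 2 := by positivity
  have h3 : w * (5 * (w * (2 * R)) + 11 / 10 * (4 * Real.pi * R * w ^ 2)) ≤
      11 / 10 * (4 * Real.pi * R * w ^ 2) := by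
    have e : 11 / 10 * (4 * Real.pi * R * w ^ 2) -
        w * (5 * (w * (2 * R)) + 11 / 10 * (4 * Real.pi * R * w ^ 2)) =
        (R * w ^ 2) * (44 / 10 * Real.pi * (1 - w) - 10) := by ring
    have h : 0 ≤ 44 / 10 * Real.pi * (1 - w) - 10 := by nlinarith
    have := mul_nonneg hRw2.le h
    linarith
  refine ⟨11 / 10 * (4 * Real.pi * R * w ^ 2), by positivity, ?_, h3, ?_, by linarith, ?_⟩
  · have e : w * (2 * R) - 11 / 10 * (4 * Real.pi * R * w ^ 2) =
      (R * w) * (2 - 44 / 10 * Real.pi * w) := by ring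
    have h : 0 ≤ 2 - 44 / 10 * Real.pi * w := by nlinarith
    have := mul_nonneg (mul_pos hR hw).le h
    linarith
  · have e : Real.pi * (w * (2 * R)) ^ 2 / (11 / 10 * (4 * Real.pi * R * w ^ 2)) = R * (10 / 11) := by
      field_simp
      ring
    rw [e]
    have e2 : 2 * R - R - (R * (10 / 11) + 100 * (w * (2 * R)) +
        6 * (11 / 10 * (4 * Real.pi * R * w ^ 2))) =
        R * (1 / 11 - 200 * w - 264 / 10 * Real.pi * w ^ 2) := by ring
    have h : 0 ≤ 1 / 11 - 200 * w - 264 / 10 * Real.pi * w ^ 2 := by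
      have : Real.pi * w ^ 2 ≤ 3.15 * (1 / 2500 * (1 / 2500)) := by
        have h1 : w ^ 2 ≤ 1 / 2500 * (1 / 2500) := by nlinarith
        exact mul_le_mul hpi2.le h1 hw20.le (by norm_num)
      norm_num at this ⊢
      linarith
    have := mul_nonneg hR.le h
    linarith
  · have e : 2 * (4 * Real.pi * R * w ^ 2) - (11 / 10 * (4 * Real.pi * R * w ^ 2) +
        w * (5 * (w * (2 * R)) + 11 / 10 * (4 * Real.pi * R * w ^ 2))) =
        (R * w ^ 2) * (8 * Real.pi - 44 / 10 * Real.pi * (1 + w) - 10) := by ring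
    have h : 0 ≤ 8 * Real.pi - 44 / 10 * Real.pi * (1 + w) - 10 := by nlinarith
    have := mul_nonneg hRw2.le h
    linarith

end Pool.Agent.Helper865.Sub
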