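import Pool.Agent.Helper865.Sub.Defs

set_option autoImplicit false

open MeasureTheory Set Filter Topology
open scoped NNReal ENNReal

namespace Pool.Agent.Helper865.Sub


noncomputable def s865_R (u : Plane) (hu : u 0 ^ 2 + u 1 ^ 2 = 1) : Plane →ₗᵢ[ℝ] Plane where
  toFun x := !₂[u 0 * x 0 + u 1 * x 1, -(u 1) * x 0 + u 0 * x 1]
  map_add' x y := by
    ext i
    fin_cases i
    · simp
      ring
    · simp
      ring
  map_smul' a x := by
    ext i
    fin_cases i
    · simp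
      ring
    · simp
      ring
  norm_map' x := by
    show ‖(!₂[u 0 * x 0 + u 1 * x 1, -(u 1) * x 0 + u 0 * x 1] : Plane)‖ = ‖x‖
    rw [EuclideanSpace.norm_eq, EuclideanSpace.norm_eq]
    congr 1
    simp only [Fin.sum_univ_two, Real.norm_eq_abs, sq_abs]
    simp
    linear_combination (x 0 ^ 2 + x 1 ^ 2) * hu

theorem s865_key (a0 a1 m ρ : ℝ) (hm : 0 ≤ m) (hρ : 0 ≤ ρ) (S : Set (ℝ × ℝ))
    (hSdef : S = {p : ℝ × ℝ | (p.1 - (a0 + m)) ^ 2 + (p.2 - a1) ^ 2 ≤ ρ ^ 2 ∧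
      ¬ ((p.1 - a0) ^ 2 + (p.2 - a1) ^ 2 ≤ ρ ^ 2)}) :
    MeasurableSet S ∧ volume S ≤ ENNReal.ofReal (2 * ρ * m) := by
  have hS : MeasurableSet S := by
    rw [hSdef]
    have e1 : MeasurableSet {p : ℝ × ℝ | (p.1 - (a0 + m)) ^ 2 + (p.2 - a1) ^ 2 ≤ ρ ^ 2} :=
      measurableSet_le (by fun_prop) (by fun_prop)
    have e2 : MeasurableSet {p : ℝ × ℝ | (p.1 - a0) ^ 2 + (p.2 - a1) ^ 2 ≤ ρ ^ 2} :=
      measurableSet_le (by fun_prop) (by fun_prop)
    exact e1.inter e2.compl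
  refine ⟨hS, ?_⟩
  rw [Measure.volume_eq_prod, Measure.prod_apply_symm hS]
  have h1 : ∀ y : ℝ, volume ((fun x : ℝ => (x, y)) ⁻¹' S) ≤
      (Icc (a1 - ρ) (a1 + ρ)).indicator (fun _ => ENNReal.ofReal m) y := by
    intro y
    by_cases hy : (y - a1) ^ 2 ≤ ρ ^ 2
    · have hmem : y ∈ Icc (a1 - ρ) (a1 + ρ) := by
        have := abs_le_of_sq_le_sq' hy hρ
        constructor <;> linarith [this.1, this.2]
      rw [indicator_of_mem hmem]
      obtain ⟨s, hs0, hs⟩ : ∃ s : ℝ, 0 ≤ s ∧ s ^ 2 = ρ ^ 2 - (y - a1) ^ 2 :=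
        ⟨√(ρ ^ 2 - (y - a1) ^ 2), Real.sqrt_nonneg _, Real.sq_sqrt (by linarith)⟩
      have hsub : ((fun x : ℝ => (x, y)) ⁻¹' S) ⊆ Ioc (a0 + s) (a0 + s + m) := by
        intro x hx
        have hx' : (x, y) ∈ S := hx
        rw [hSdef] at hx'
        obtain ⟨h2, h3⟩ := hx'
        have h2' : (x - (a0 + m)) ^ 2 ≤ s ^ 2 := by
          have : (x - (a0 + m)) ^ 2 + (y - a1) ^ 2 ≤ ρ ^ 2 := h2
          linarith
        have h3' : s ^ 2 < (x - a0) ^ 2 := by
          have : ¬ ((x - a0) ^ 2 + (y - a1) ^ 2 ≤ ρ ^ 2) := h3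
          rw [not_le] at this
          linarith
        have h4 := abs_le_of_sq_le_sq' h2' hs0
        have h5 : s < |x - a0| := by
          have := sq_lt_sq.1 h3'
          rwa [abs_of_nonneg hs0] at this
        constructor
        · rcases lt_abs.1 h5 with h6 | h6
          · linarith
          · linarith [h4.1, h4.2]
        · linarith [h4.1, h4.2]
      refine (measure_mono hsub).trans (le_of_eq ?_)
      rw [Real.volume_Ioc]
      congr 1
      ring
    · have hem : ((fun x : ℝ => (x, y)) ⁻¹' S) = ∅ := by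
        ext x
        constructor
        · intro hx
          have hx' : (x, y) ∈ S := hx
          rw [hSdef] at hx'
          have h2 : (x - (a0 + m)) ^ 2 + (y - a1) ^ 2 ≤ ρ ^ 2 := hx'.1
          exact absurd (by nlinarith [sq_nonneg (x - (a0 + m))]) hy
        · intro hx
          exact absurd hx (Set.notMem_empty _)
      rw [hem, measure_empty]
      exact zero_le
  refine (lintegral_mono h1).trans (le_of_eq ?_)
  rw [lintegral_indicator_const measurableSet_Icc, Real.volume_Icc, ← ENNReal.ofReal_mul hm]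
  congr 1
  ring

theorem crescent (c c' : Plane) (ρ : ℝ) (hρ : 0 ≤ ρ) :
    volume (Metric.closedBall c' ρ \ Metric.closedBall c ρ)
      ≤ ENNReal.ofReal (2 * ρ * ‖c' - c‖) := by
  rcases eq_or_ne c' c with rfl | hne
  · rw [diff_self, measure_empty]
    exact zero_le
  have hd : 0 < ‖c' - c‖ := norm_pos_iff.2 (sub_ne_zero.2 hne)
  obtain ⟨u, hu1⟩ : ∃ u : Plane, c' - c = ‖c' - c‖ • u :=
    ⟨‖c' - c‖⁻¹ • (c' - c), by rw [smul_smul, mul_inv_cancel₀ hd.ne', one_smul]⟩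
  have hun : ‖u‖ = 1 := by
    have h1 := congrArg norm hu1
    rw [norm_smul, norm_norm] at h1
    have h2 : ‖c' - c‖ * ‖u‖ = ‖c' - c‖ * 1 := by rw [← h1, mul_one]
    exact mul_left_cancel₀ hd.ne' h2
  have hu : u 0 ^ 2 + u 1 ^ 2 = 1 := by
    have h1 := EuclideanSpace.norm_sq_eq u
    rw [hun, Fin.sum_univ_two] at h1
    simp only [Real.norm_eq_abs, sq_abs] at h1
    linarith
  let e : Plane ≃ₗᵢ[ℝ] Plane := (s865_R u hu).toLinearIsometryEquiv rfl
  have he : ∀ x, e x = !₂[u 0 * x 0 + u 1 * x 1, -(u 1) * x 0 + u 0 * x 1] := fun x => rfl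
  have hed : e c' = e c + ‖c' - c‖ • e u := by
    rw [← map_smul, ← hu1, ← map_add]
    congr 1
    abel
  have he0 : (e u) 0 = 1 := by
    rw [he]
    simp
    linarith
  have he1 : (e u) 1 = 0 := by
    rw [he]
    simp
    ring
  have h0 : (e c') 0 = (e c) 0 + ‖c' - c‖ := by
    rw [hed]
    simp [he0]
  have h1 : (e c') 1 = (e c) 1 := by
    rw [hed]
    simp [he1]
  obtain ⟨hS, hvol⟩ := s865_key ((e c) 0) ((e c) 1) ‖c' - c‖ ρ hd.le hρ _ rfl
  have hmp : MeasurePreserving (fun x : Plane => ((e x) 0, (e x) 1)) volume volume := by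
    have h2 := (volume_preserving_finTwoArrow ℝ).comp
      (EuclideanSpace.volume_preserving_symm_measurableEquiv_toLp (Fin 2))
    exact h2.comp e.measurePreserving
  rw [← hmp.measure_preimage hS.nullMeasurableSet] at hvol
  convert hvol using 2
  ext x
  have hb : ∀ y : Plane, x ∈ Metric.closedBall y ρ ↔
      ((e x) 0 - (e y) 0) ^ 2 + ((e x) 1 - (e y) 1) ^ 2 ≤ ρ ^ 2 := by
    intro y
    rw [Metric.mem_closedBall, ← e.dist_map x y, EuclideanSpace.dist_eq,
      Real.sqrt_le_left hρ, Fin.sum_univ_two]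
    simp only [Real.dist_eq, sq_abs]
  rw [mem_diff, hb, hb, h0, h1]
  rfl

end Pool.Agent.Helper865.Sub
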