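import Pool.Agent.Helper865.Sub.Defs

set_option autoImplicit false

open MeasureTheory Set Filter Topology
open scoped NNReal ENNReal

namespace Pool.Agent.Helper865.Sub


theorem chain
    (crescent : ∀ (c c' : Plane) (ρ : ℝ), 0 ≤ ρ →
      volume (Metric.closedBall c' ρ \ Metric.closedBall c ρ)
        ≤ ENNReal.ofReal (2 * ρ * ‖c' - c‖))
    (S : Set Plane) (c : ℕ → Plane) (ρ b : ℕ → ℝ) (hρ0 : ∀ i, 0 ≤ ρ i)
    (hρ : Antitone ρ) (hb0 : ∀ i, 0 ≤ b i)
    (hb : ∀ i, (Metric.closedBall (c (i + 1)) (ρ (i + 1)) ∩ S).Nonempty →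
      ‖c (i + 1) - c i‖ ≤ b i) :
    volume (S ∩ ⋃ i, Metric.closedBall (c i) (ρ i))
      ≤ ENNReal.ofReal (Real.pi * ρ 0 ^ 2) + ∑' i, ENNReal.ofReal (2 * ρ (i + 1) * b i) := by
  have hsub : S ∩ ⋃ i, Metric.closedBall (c i) (ρ i) ⊆ Metric.closedBall (c 0) (ρ 0) ∪
      ⋃ i, (S ∩ (Metric.closedBall (c (i + 1)) (ρ (i + 1)) \ Metric.closedBall (c i) (ρ i))) := by
    classical
    rintro x ⟨hxS, hx⟩
    have hx' : ∃ i, x ∈ Metric.closedBall (c i) (ρ i) := by
      simpa only [Set.mem_iUnion] using hx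
    by_cases h0 : Nat.find hx' = 0
    · left
      have := Nat.find_spec hx'
      rwa [h0] at this
    · right
      obtain ⟨i, hi⟩ := Nat.exists_eq_succ_of_ne_zero h0
      rw [Set.mem_iUnion]
      refine ⟨i, hxS, ?_, ?_⟩
      · have := Nat.find_spec hx'
        rwa [hi] at this
      · exact Nat.find_min hx' (by omega)
  have hi : ∀ i, volume (S ∩ (Metric.closedBall (c (i + 1)) (ρ (i + 1)) \
      Metric.closedBall (c i) (ρ i))) ≤ ENNReal.ofReal (2 * ρ (i + 1) * b i) := by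
    intro i
    by_cases hne : (Metric.closedBall (c (i + 1)) (ρ (i + 1)) ∩ S).Nonempty
    · have h1 : S ∩ (Metric.closedBall (c (i + 1)) (ρ (i + 1)) \
          Metric.closedBall (c i) (ρ i)) ⊆ Metric.closedBall (c (i + 1)) (ρ (i + 1)) \
          Metric.closedBall (c i) (ρ (i + 1)) := by
        rintro x ⟨_, h2, h3⟩
        exact ⟨h2, fun h4 => h3 (Metric.closedBall_subset_closedBall (hρ (Nat.le_succ i)) h4)⟩
      refine (measure_mono h1).trans ((crescent _ _ _ (hρ0 _)).trans ?_)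
      apply ENNReal.ofReal_le_ofReal
      have h2 := hb i hne
      have h3 := hρ0 (i + 1)
      exact mul_le_mul_of_nonneg_left h2 (by linarith)
    · have h1 : S ∩ (Metric.closedBall (c (i + 1)) (ρ (i + 1)) \
          Metric.closedBall (c i) (ρ i)) = ∅ := by
        apply Set.eq_empty_of_forall_notMem
        rintro x ⟨h2, h3, _⟩
        exact hne ⟨x, h3, h2⟩
      rw [h1, measure_empty]
      exact zero_le
  refine (measure_mono hsub).trans ((measure_union_le _ _).trans ?_)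
  refine add_le_add (le_of_eq ?_) ((measure_iUnion_le _).trans (ENNReal.tsum_le_tsum hi))
  rw [EuclideanSpace.volume_closedBall_fin_two]
  rw [mul_comm, ENNReal.ofReal_mul Real.pi_pos.le, ENNReal.ofReal_pow (hρ0 0)]


end Pool.Agent.Helper865.Sub
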