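import Pool.Agent.Helper865.Sub.Defs

set_option autoImplicit false

open MeasureTheory Set Filter Topology
open scoped NNReal ENNReal

namespace Pool.Agent.Helper865.Sub


theorem cover (A : Plane) (r w ε : ℝ) (hr : 0 < r) (hrA : r < ‖A‖) (hw : 0 < w) (hε : 0 < ε)
    (σ : ℝ≥0 → Plane) (hσ : σ ∈ Paths A 1) (V : Plane) (hV : ‖V‖ ≤ w) (t : ℝ≥0)
    (ht : ‖σ t - (t : ℝ) • V‖ ≤ r) :
    ∃ i : ℕ, ‖V - ((‖A‖ - r) / (1 + w) + i * (ε * r / (1 + w)))⁻¹ •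
        σ (Real.toNNReal ((‖A‖ - r) / (1 + w) + i * (ε * r / (1 + w))))‖
      ≤ (1 + ε) * r / ((‖A‖ - r) / (1 + w) + i * (ε * r / (1 + w))) := by
  have hw1 : 0 < 1 + w := by linarith
  obtain ⟨T0, hT0⟩ : ∃ T0 : ℝ, T0 = (‖A‖ - r) / (1 + w) := ⟨_, rfl⟩
  obtain ⟨h, hh⟩ : ∃ h : ℝ, h = ε * r / (1 + w) := ⟨_, rfl⟩
  rw [← hT0, ← hh]
  have hT0pos : 0 < T0 := by
    rw [hT0]
    exact div_pos (by linarith) hw1
  have hhpos : 0 < h := by
    rw [hh]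
    positivity
  have hh1 : h * (1 + w) = ε * r := by
    rw [hh]
    exact div_mul_cancel₀ _ hw1.ne'
  obtain ⟨h0, hlip⟩ := hσ
  have htT0 : T0 ≤ t := by
    rw [hT0, div_le_iff₀ hw1]
    have h1 : ‖σ 0 - σ t‖ ≤ t := by
      have := hlip 0 t
      rw [one_mul, NNReal.coe_zero, zero_sub, abs_neg, abs_of_nonneg (NNReal.coe_nonneg t)] at this
      exact this
    have h2 : ‖(t : ℝ) • V‖ ≤ t * w := by
      rw [norm_smul, Real.norm_eq_abs, abs_of_nonneg (NNReal.coe_nonneg t)]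
      exact mul_le_mul_of_nonneg_left hV (NNReal.coe_nonneg t)
    have h3 : ‖A‖ ≤ ‖σ 0 - σ t‖ + ‖σ t - (t : ℝ) • V‖ + ‖(t : ℝ) • V‖ := by
      have e : A = (σ 0 - σ t) + (σ t - (t : ℝ) • V) + (t : ℝ) • V := by
        rw [h0]
        abel
      calc ‖A‖ = ‖(σ 0 - σ t) + (σ t - (t : ℝ) • V) + (t : ℝ) • V‖ := by rw [← e]
        _ ≤ _ := norm_add₃_le
    linarith
  obtain ⟨i, hi⟩ : ∃ i : ℕ, i = ⌊((t : ℝ) - T0) / h⌋₊ := ⟨_, rfl⟩
  have hi1 : (i : ℝ) * h ≤ t - T0 := by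
    rw [hi, ← le_div_iff₀ hhpos]
    exact Nat.floor_le (div_nonneg (by linarith) hhpos.le)
  have hi2 : (t : ℝ) - T0 < (i + 1) * h := by
    rw [hi, ← div_lt_iff₀ hhpos]
    exact Nat.lt_floor_add_one _
  refine ⟨i, ?_⟩
  obtain ⟨S, hS⟩ : ∃ S : ℝ, S = T0 + i * h := ⟨_, rfl⟩
  rw [← hS]
  have hSpos : 0 < S := by
    rw [hS]
    positivity
  have hSt : S ≤ t := by rw [hS]; linarith
  have htS : (t : ℝ) - S ≤ h := by rw [hS]; linarith
  have hScoe : ((Real.toNNReal S : ℝ≥0) : ℝ) = S := Real.coe_toNNReal _ hSpos.le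
  have e1 : V - S⁻¹ • σ (Real.toNNReal S) = S⁻¹ • (S • V - σ (Real.toNNReal S)) := by
    rw [smul_sub, smul_smul, inv_mul_cancel₀ hSpos.ne', one_smul]
  rw [e1, norm_smul, norm_inv, Real.norm_eq_abs, abs_of_pos hSpos, inv_mul_eq_div]
  apply div_le_div_of_nonneg_right _ hSpos.le
  have h1 : ‖σ t - σ (Real.toNNReal S)‖ ≤ t - S := by
    have := hlip t (Real.toNNReal S)
    rw [one_mul, hScoe, abs_of_nonneg (by linarith)] at this
    exact this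
  have h2 : ‖((t : ℝ) - S) • V‖ ≤ (t - S) * w := by
    rw [norm_smul, Real.norm_eq_abs, abs_of_nonneg (by linarith)]
    exact mul_le_mul_of_nonneg_left hV (by linarith)
  have h3 : ‖S • V - σ (Real.toNNReal S)‖ ≤ ‖σ t - σ (Real.toNNReal S)‖ +
      ‖σ t - (t : ℝ) • V‖ + ‖((t : ℝ) - S) • V‖ := by
    have e : S • V - σ (Real.toNNReal S) = (σ t - σ (Real.toNNReal S)) +
        (-(σ t - (t : ℝ) • V)) + (-(((t : ℝ) - S) • V)) := by
      rw [sub_smul]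
      abel
    rw [e]
    refine norm_add₃_le.trans ?_
    rw [norm_neg, norm_neg]
  have h4 : ((t : ℝ) - S) * (1 + w) ≤ h * (1 + w) := mul_le_mul_of_nonneg_right htS hw1.le
  rw [hh1] at h4
  nlinarith

theorem step (A : Plane) (σ : ℝ≥0 → Plane) (hσ : σ ∈ Paths A 1) (s t k : ℝ) (hs : 0 < s)
    (hst : s < t) (hk : ‖t⁻¹ • σ (Real.toNNReal t)‖ ≤ k) :
    ‖t⁻¹ • σ (Real.toNNReal t) - s⁻¹ • σ (Real.toNNReal s)‖ ≤ (t - s) * (1 + k) / s := by
  obtain ⟨h0, hlip⟩ := hσ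
  have ht : 0 < t := hs.trans hst
  have h1 : ‖σ (Real.toNNReal t) - σ (Real.toNNReal s)‖ ≤ t - s := by
    have := hlip (Real.toNNReal t) (Real.toNNReal s)
    rw [one_mul, Real.coe_toNNReal _ ht.le, Real.coe_toNNReal _ hs.le,
      abs_of_nonneg (by linarith)] at this
    exact this
  have e1 : t⁻¹ • σ (Real.toNNReal t) - s⁻¹ • σ (Real.toNNReal s) =
      s⁻¹ • (σ (Real.toNNReal t) - σ (Real.toNNReal s)) -
        ((t - s) / s) • (t⁻¹ • σ (Real.toNNReal t)) := by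
    rw [smul_sub, smul_smul]
    have e2 : t⁻¹ = s⁻¹ - (t - s) / s * t⁻¹ := by
      field_simp
      ring
    have e3 : t⁻¹ • σ (Real.toNNReal t) = s⁻¹ • σ (Real.toNNReal t) -
        ((t - s) / s * t⁻¹) • σ (Real.toNNReal t) := by
      rw [← sub_smul, ← e2]
    rw [e3]
    abel
  rw [e1]
  refine (norm_sub_le _ _).trans ?_
  rw [norm_smul, norm_smul, norm_inv, Real.norm_eq_abs, Real.norm_eq_abs, abs_of_pos hs,
    abs_of_nonneg (div_nonneg (by linarith) hs.le)]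
  have h2 : s⁻¹ * ‖σ (Real.toNNReal t) - σ (Real.toNNReal s)‖ ≤ s⁻¹ * (t - s) :=
    mul_le_mul_of_nonneg_left h1 (inv_pos.mpr hs).le
  have h3 : (t - s) / s * ‖t⁻¹ • σ (Real.toNNReal t)‖ ≤ (t - s) / s * k :=
    mul_le_mul_of_nonneg_left hk (div_nonneg (by linarith) hs.le)
  have e4 : (t - s) * (1 + k) / s = s⁻¹ * (t - s) + (t - s) / s * k := by
    field_simp
  rw [e4]
  exact add_le_add h2 h3

theorem telescope (t₀ h : ℝ) (ht₀ : 0 < t₀) (hh : 0 < h) :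
    ∑' i : ℕ, ENNReal.ofReal (h / ((t₀ + i * h) * (t₀ + (i + 1 : ℕ) * h)))
      = ENNReal.ofReal (1 / t₀) := by
  have hpos : ∀ i : ℕ, 0 < t₀ + i * h := fun i => by positivity
  have hterm : ∀ i : ℕ, h / ((t₀ + i * h) * (t₀ + (i + 1 : ℕ) * h)) =
      1 / (t₀ + i * h) - 1 / (t₀ + (i + 1 : ℕ) * h) := by
    intro i
    have h1 := (hpos i).ne'
    have h2 := (hpos (i + 1)).ne'
    rw [div_sub_div _ _ h1 h2]
    congr 1
    push_cast
    ring
  have hnn : ∀ i : ℕ, 0 ≤ h / ((t₀ + i * h) * (t₀ + (i + 1 : ℕ) * h)) := by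
    intro i
    have h1 := hpos i
    have h2 := hpos (i + 1)
    positivity
  have hsum : HasSum (fun i : ℕ => h / ((t₀ + i * h) * (t₀ + (i + 1 : ℕ) * h))) (1 / t₀) := by
    rw [hasSum_iff_tendsto_nat_of_nonneg hnn]
    have e1 : ∀ n : ℕ, ∑ i ∈ Finset.range n, h / ((t₀ + i * h) * (t₀ + (i + 1 : ℕ) * h)) =
        1 / t₀ - 1 / (t₀ + n * h) := by
      intro n
      rw [Finset.sum_congr rfl (fun i _ => hterm i),
        Finset.sum_range_sub' (fun i : ℕ => 1 / (t₀ + i * h))]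
      simp
    simp only [e1]
    have h1 : Tendsto (fun n : ℕ => t₀ + (n : ℝ) * h) atTop atTop :=
      tendsto_atTop_add_const_left _ _ (tendsto_natCast_atTop_atTop.atTop_mul_const hh)
    have h2 : Tendsto (fun n : ℕ => 1 / (t₀ + (n : ℝ) * h)) atTop (𝓝 0) := by
      simp only [one_div]
      exact h1.inv_tendsto_atTop
    have h3 := h2.const_sub (1 / t₀)
    rw [sub_zero] at h3
    exact h3
  rw [← ENNReal.ofReal_tsum_of_nonneg hnn hsum.summable, hsum.tsum_eq]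

end Pool.Agent.Helper865.Sub
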