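import Pool.Agent.Helper865.Sub.Defs

set_option autoImplicit false

open MeasureTheory Set Filter Topology
open scoped NNReal ENNReal

namespace Pool.Agent.Helper865.Sub


theorem sweptArea
    (chain : ∀ (S : Set Plane) (c : ℕ → Plane) (ρ b : ℕ → ℝ), (∀ i, 0 ≤ ρ i) →
      Antitone ρ → (∀ i, 0 ≤ b i) →
      (∀ i, (Metric.closedBall (c (i + 1)) (ρ (i + 1)) ∩ S).Nonempty →
        ‖c (i + 1) - c i‖ ≤ b i) →
      volume (S ∩ ⋃ i, Metric.closedBall (c i) (ρ i))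
        ≤ ENNReal.ofReal (Real.pi * ρ 0 ^ 2) + ∑' i, ENNReal.ofReal (2 * ρ (i + 1) * b i))
    (cover : ∀ (A : Plane) (r w ε : ℝ), 0 < r → r < ‖A‖ → 0 < w → 0 < ε →
      ∀ σ ∈ Paths A 1, ∀ V : Plane, ‖V‖ ≤ w → ∀ t : ℝ≥0, ‖σ t - (t : ℝ) • V‖ ≤ r →
      ∃ i : ℕ, ‖V - ((‖A‖ - r) / (1 + w) + i * (ε * r / (1 + w)))⁻¹ •
          σ (Real.toNNReal ((‖A‖ - r) / (1 + w) + i * (ε * r / (1 + w))))‖
        ≤ (1 + ε) * r / ((‖A‖ - r) / (1 + w) + i * (ε * r / (1 + w))))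
    (step : ∀ (A : Plane), ∀ σ ∈ Paths A 1, ∀ (s t k : ℝ), 0 < s → s < t →
      ‖t⁻¹ • σ (Real.toNNReal t)‖ ≤ k →
      ‖t⁻¹ • σ (Real.toNNReal t) - s⁻¹ • σ (Real.toNNReal s)‖ ≤ (t - s) * (1 + k) / s)
    (telescope : ∀ (t₀ h : ℝ), 0 < t₀ → 0 < h →
      ∑' i : ℕ, ENNReal.ofReal (h / ((t₀ + i * h) * (t₀ + (i + 1 : ℕ) * h)))
        = ENNReal.ofReal (1 / t₀))
    (A : Plane) (r w t₀ : ℝ) (hr : 0 < r) (hrA : r < ‖A‖) (hw : 0 < w)
    (ht₀ : t₀ = (‖A‖ - r) / (1 + w)) (σ : ℝ≥0 → Plane) (hσ : σ ∈ Paths A 1) :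
    volume {V : Plane | V ∈ Metric.closedBall (0 : Plane) w ∧
        Captured r σ (fun t => (t : ℝ) • V)}
      ≤ ENNReal.ofReal (Real.pi * (r / t₀) ^ 2 + 2 * r * (1 + w + r / t₀) / t₀) := by
  have h1w : 0 < 1 + w := by linarith
  have ht0 : 0 < t₀ := by
    rw [ht₀]
    exact div_pos (by linarith) h1w
  have key : ∀ ε : ℝ, 0 < ε → volume {V : Plane | V ∈ Metric.closedBall (0 : Plane) w ∧
        Captured r σ (fun t => (t : ℝ) • V)}
      ≤ ENNReal.ofReal (Real.pi * ((1 + ε) * r / t₀) ^ 2 +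
        2 * ((1 + ε) * r) * (1 + w + (1 + ε) * r / t₀) / t₀) := by
    intro ε hε
    obtain ⟨h, hh⟩ : ∃ h : ℝ, h = ε * r / (1 + w) := ⟨_, rfl⟩
    have hhp : 0 < h := by rw [hh]; positivity
    obtain ⟨K, hK⟩ : ∃ K : ℝ, K = w + (1 + ε) * r / t₀ := ⟨_, rfl⟩
    have hKp : 0 ≤ K := by rw [hK]; positivity
    have htp : ∀ i : ℕ, 0 < t₀ + i * h := fun i => by positivity
    have htt : ∀ i : ℕ, t₀ ≤ t₀ + i * h := fun i => by
      have : 0 ≤ (i : ℝ) * h := by positivity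
      linarith
    have hch := chain (Metric.closedBall (0 : Plane) w)
      (fun i => (t₀ + i * h)⁻¹ • σ (Real.toNNReal (t₀ + i * h)))
      (fun i => (1 + ε) * r / (t₀ + i * h)) (fun i => h * (1 + K) / (t₀ + i * h))
      (fun i => by have := htp i; positivity)
      (by
        intro i j hij
        show (1 + ε) * r / (t₀ + j * h) ≤ (1 + ε) * r / (t₀ + i * h)
        apply div_le_div_of_nonneg_left (by positivity) (htp i)
        have : (i : ℝ) ≤ j := by exact_mod_cast hij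
        have := mul_le_mul_of_nonneg_right this hhp.le
        linarith)
      (fun i => by have := htp i; positivity)
      (by
        intro i hne
        obtain ⟨V, hV1, hV2⟩ := hne
        rw [Metric.mem_closedBall, dist_eq_norm] at hV1 hV2
        rw [sub_zero] at hV2
        have h3 : ‖(t₀ + ((i + 1 : ℕ) : ℝ) * h)⁻¹ • σ (Real.toNNReal (t₀ + ((i + 1 : ℕ) : ℝ) * h))‖ ≤ K := by
          have h4 : (t₀ + ((i + 1 : ℕ) : ℝ) * h)⁻¹ • σ (Real.toNNReal (t₀ + ((i + 1 : ℕ) : ℝ) * h)) =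
              V - (V - (t₀ + ((i + 1 : ℕ) : ℝ) * h)⁻¹ • σ (Real.toNNReal (t₀ + ((i + 1 : ℕ) : ℝ) * h))) := by
            abel
          rw [h4]
          refine (norm_sub_le _ _).trans ?_
          rw [hK]
          have h5 : (1 + ε) * r / (t₀ + ((i + 1 : ℕ) : ℝ) * h) ≤ (1 + ε) * r / t₀ :=
            div_le_div_of_nonneg_left (by positivity) ht0 (htt _)
          linarith
        have h6 : t₀ + (i : ℝ) * h < t₀ + ((i + 1 : ℕ) : ℝ) * h := by
          push_cast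
          linarith
        have h7 := step A σ hσ (t₀ + i * h) (t₀ + ((i + 1 : ℕ) : ℝ) * h) K (htp i) h6 h3
        have h8 : t₀ + ((i + 1 : ℕ) : ℝ) * h - (t₀ + i * h) = h := by
          push_cast
          ring
        rw [h8] at h7
        exact h7)
    have hsub : {V : Plane | V ∈ Metric.closedBall (0 : Plane) w ∧ Captured r σ (fun t => (t : ℝ) • V)} ⊆
        Metric.closedBall (0 : Plane) w ∩ ⋃ i : ℕ,
          Metric.closedBall ((t₀ + i * h)⁻¹ • σ (Real.toNNReal (t₀ + i * h))) ((1 + ε) * r / (t₀ + i * h)) := by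
      rintro V ⟨hV, t, ht⟩
      refine ⟨hV, ?_⟩
      have hVw : ‖V‖ ≤ w := by
        rw [Metric.mem_closedBall, dist_zero_right] at hV
        exact hV
      obtain ⟨i, hi⟩ := cover A r w ε hr hrA hw hε σ hσ V hVw t ht
      rw [← ht₀, ← hh] at hi
      rw [Set.mem_iUnion]
      refine ⟨i, ?_⟩
      rw [Metric.mem_closedBall, dist_eq_norm]
      exact hi
    refine (measure_mono hsub).trans (hch.trans ?_)
    have hsum : ∑' i : ℕ, ENNReal.ofReal (2 * ((1 + ε) * r / (t₀ + ((i + 1 : ℕ) : ℝ) * h)) *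
        (h * (1 + K) / (t₀ + i * h))) = ENNReal.ofReal (2 * ((1 + ε) * r) * (1 + K)) *
          ENNReal.ofReal (1 / t₀) := by
      rw [← telescope t₀ h ht0 hhp, ← ENNReal.tsum_mul_left]
      congr 1
      funext i
      rw [← ENNReal.ofReal_mul (by positivity)]
      congr 1
      have := (htp i).ne'
      have := (htp (i + 1)).ne'
      field_simp
    have hsum' : ∑' i : ℕ, ENNReal.ofReal (2 * (fun i : ℕ => (1 + ε) * r / (t₀ + (i : ℝ) * h)) (i + 1) *
        (fun i : ℕ => h * (1 + K) / (t₀ + (i : ℝ) * h)) i) = ENNReal.ofReal (2 * ((1 + ε) * r) * (1 + K)) *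
          ENNReal.ofReal (1 / t₀) := hsum
    rw [hsum', ← ENNReal.ofReal_mul (by positivity), ← ENNReal.ofReal_add (by positivity) (by positivity)]
    apply ENNReal.ofReal_le_ofReal
    apply le_of_eq
    rw [hK]
    simp only [Nat.cast_zero, zero_mul, add_zero]
    ring
  have hlim : Tendsto (fun ε : ℝ => ENNReal.ofReal (Real.pi * ((1 + ε) * r / t₀) ^ 2 +
        2 * ((1 + ε) * r) * (1 + w + (1 + ε) * r / t₀) / t₀)) (𝓝[>] 0)
      (𝓝 (ENNReal.ofReal (Real.pi * ((1 + 0) * r / t₀) ^ 2 +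
        2 * ((1 + 0) * r) * (1 + w + (1 + 0) * r / t₀) / t₀))) := by
    refine Tendsto.mono_left ?_ nhdsWithin_le_nhds
    apply (ENNReal.continuous_ofReal.comp ?_).tendsto
    fun_prop
  have hfin := ge_of_tendsto hlim (by
    filter_upwards [self_mem_nhdsWithin] with ε hε
    exact key ε hε)
  simpa using hfin

end Pool.Agent.Helper865.Sub
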