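import Pool.Agent.Helper865.Sub.Defs

set_option autoImplicit false

open MeasureTheory Set Filter Topology
open scoped NNReal ENNReal

namespace Pool.Agent.Helper865.Sub


theorem value_le
    (measCaptured : ∀ (r : ℝ) (A : Plane),
      MeasurableSet {p : (Paths A 1) × Plane |
        Captured r (p.1 : ℝ≥0 → Plane) (fun t => (t : ℝ) • p.2)})
    (r w M : ℝ) (A : Plane) (hw : 0 < w) (hM : 0 ≤ M)
    (hvol : ∀ σ ∈ Paths A 1, volume {V : Plane | V ∈ Metric.closedBall (0 : Plane) w ∧
        Captured r σ (fun t => (t : ℝ) • V)} ≤ ENNReal.ofReal M) :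
    value r w A ≤ ENNReal.ofReal (M / (Real.pi * w ^ 2)) := by
  unfold value
  refine iSup_le fun μ => ?_
  set Iv : ℝ≥0∞ := ⨅ h : Paths (0 : Plane) w,
    (μ : Measure (Paths A 1)) {σ | Captured r (σ : ℝ≥0 → Plane) (h : ℝ≥0 → Plane)} with hIv
  have hpos : 0 < Real.pi * w ^ 2 := by positivity
  have hball : volume (Metric.closedBall (0 : Plane) w) = ENNReal.ofReal (Real.pi * w ^ 2) := by
    rw [EuclideanSpace.volume_closedBall_fin_two]
    rw [ENNReal.ofReal_mul Real.pi_pos.le, ENNReal.ofReal_pow hw.le, mul_comm]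
  set S : Set ((Paths A 1) × Plane) := {p | Captured r (p.1 : ℝ≥0 → Plane) (fun t => (t : ℝ) • p.2)} with hS
  have hSm : MeasurableSet S := measCaptured r A
  set ν : Measure Plane := volume.restrict (Metric.closedBall (0 : Plane) w) with hν
  haveI : IsFiniteMeasure ν := by
    refine ⟨?_⟩
    rw [hν, Measure.restrict_apply_univ, hball]
    exact ENNReal.ofReal_lt_top
  have hpath : ∀ V ∈ Metric.closedBall (0 : Plane) w, (fun t : ℝ≥0 => (t : ℝ) • V) ∈ Paths (0 : Plane) w := by
    intro V hV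
    refine ⟨by simp, ?_⟩
    intro s t
    rw [← sub_smul, norm_smul, Real.norm_eq_abs, mul_comm]
    rw [mem_closedBall_zero_iff] at hV
    exact mul_le_mul_of_nonneg_right hV (abs_nonneg _)
  have h1 : Iv * ENNReal.ofReal (Real.pi * w ^ 2) ≤ ((μ : Measure (Paths A 1)).prod ν) S := by
    rw [Measure.prod_apply_symm hSm]
    have h2 : Iv * ENNReal.ofReal (Real.pi * w ^ 2) = ∫⁻ _ : Plane, Iv ∂ν := by
      rw [lintegral_const, hν, Measure.restrict_apply_univ, hball]
    rw [h2]
    refine lintegral_mono_ae ?_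
    rw [hν]
    filter_upwards [ae_restrict_mem Metric.isClosed_closedBall.measurableSet] with V hV
    exact iInf_le _ (⟨_, hpath V hV⟩ : Paths (0 : Plane) w)
  have h3 : ((μ : Measure (Paths A 1)).prod ν) S ≤ ENNReal.ofReal M := by
    rw [Measure.prod_apply hSm]
    have h4 : ∀ x : Paths A 1, ν (Prod.mk x ⁻¹' S) ≤ ENNReal.ofReal M := by
      intro x
      rw [hν, Measure.restrict_apply (measurable_prodMk_left hSm)]
      refine le_trans (measure_mono ?_) (hvol x x.2)
      rintro V ⟨hV1, hV2⟩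
      exact ⟨hV2, hV1⟩
    calc ∫⁻ x, ν (Prod.mk x ⁻¹' S) ∂(μ : Measure (Paths A 1))
        ≤ ∫⁻ _, ENNReal.ofReal M ∂(μ : Measure (Paths A 1)) := lintegral_mono h4
      _ = ENNReal.ofReal M := by rw [lintegral_const, measure_univ, mul_one]
  have h5 := h1.trans h3
  rw [ENNReal.ofReal_div_of_pos hpos]
  rw [ENNReal.le_div_iff_mul_le (Or.inl (by
    rw [Ne, ENNReal.ofReal_eq_zero]
    exact not_le.2 hpos)) (Or.inl ENNReal.ofReal_ne_top)]
  exact h5

end Pool.Agent.Helper865.Sub
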