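import Pool.Agent.Helper865.Sub.Defs
import Pool.Agent.Helper865.Sub.U1
import Pool.Agent.Helper865.Sub.U2
import Pool.Agent.Helper865.Sub.U3
import Pool.Agent.Helper865.Sub.U5
import Pool.Agent.Helper865.Sub.M
import Pool.Agent.Helper865.Sub.U6
import Pool.Agent.Helper865.Sub.L1
import Pool.Agent.Helper865.Sub.L2
import Pool.Agent.Helper865.Sub.L3
import Pool.Agent.Helper865.Sub.L4a
import Pool.Agent.Helper865.Sub.L4b
import Pool.Agent.Helper865.Sub.L5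
import Pool.Agent.Helper865.Sub.L6
import Pool.Agent.Helper865.Sub.L7
import Pool.Agent.Helper865.Sub.L8
import Pool.Agent.Helper865.Sub.PA
import Pool.Agent.Helper865.Sub.PB
import Pool.Agent.Helper865.Sub.PC

set_option autoImplicit false

open MeasureTheory Set Filter Topology
open scoped NNReal ENNReal

namespace Pool.Agent.Helper865.Sub

theorem sweep (ρ D : ℝ) (hD : 0 < D) (hDρ : D ≤ ρ) :
      ∃ (L : ℝ) (B : ℝ → Plane), 0 ≤ L ∧ L ≤ Real.pi * ρ ^ 2 / D + 100 * ρ ∧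
        (∀ s t, ‖B s - B t‖ ≤ |s - t|) ∧ (∀ t ≤ 0, B t = 0) ∧ (∀ t, L ≤ t → B t = 0) ∧
        ∀ (w : ℝ) (h : ℝ → Plane), 0 ≤ w → w * (5 * ρ + D) ≤ D →
          (∀ s ∈ Icc 0 L, ∀ t ∈ Icc 0 L, ‖h s - h t‖ ≤ w * |s - t|) →
          (∀ t ∈ Icc 0 L, ‖h t‖ ≤ ρ) →
          ∃ t ∈ Icc 0 L, ∃ z ∈ Icc 0 (D + w * (5 * ρ + D)),
            (h t) 0 = (B t) 0 ∧ (h t) 1 = (B t) 1 + z := by
  obtain ⟨K, L, B, α, β, x, hx, hL0, hL, hK, hK1, hBl, hB0, hBL, h1, h2, h3, h4⟩ :=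
    lawn pathWP sumHalf varHalf ρ D hD hDρ
  refine ⟨L, B, hL0, hL, hBl, hB0, hBL, ?_⟩
  intro w h hw hwD hh hρ
  exact crossing ρ D w hD hDρ hw hwD K L B α β x hx hK hK1 hBl h1 h2 h3 h4 h hh hρ

theorem upperAll (r w : ℝ) (A : Plane) (hw : 0 < w) (hr : 0 < r) (hrA : r < ‖A‖) :
    value r w A ≤ ENNReal.ofReal
      ((Real.pi * (r / ((‖A‖ - r) / (1 + w))) ^ 2
          + 2 * r * (1 + w + r / ((‖A‖ - r) / (1 + w))) / ((‖A‖ - r) / (1 + w)))
        / (Real.pi * w ^ 2)) := by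
  have ht : 0 < (‖A‖ - r) / (1 + w) := by
    apply div_pos <;> linarith
  refine value_le measCaptured r w _ A hw ?_ ?_
  · have := Real.pi_pos
    positivity
  · intro σ hσ
    exact sweptArea (chain crescent) (fun A r w ε h1 h2 h3 h4 σ hσ V hV t ht =>
      cover A r w ε h1 h2 h3 h4 σ hσ V hV t ht) (fun A σ hσ s t k h1 h2 h3 =>
      step A σ hσ s t k h1 h2 h3) telescope A r w _ hr hrA hw rfl σ hσ

theorem certainAll (r w : ℝ) (A : Plane) (hw : 0 < w) (hw1 : w ≤ 1 / 2500) (hA : A ≠ 0)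
    (hr : 4 * Real.pi * ‖A‖ * w ^ 2 ≤ r) : value r w A = 1 := by
  have hR : 0 < ‖A‖ := norm_pos_iff.mpr hA
  obtain ⟨D, hD, hDρ, hwD, htime, hgD, hgr⟩ := paramC w r ‖A‖ hw hw1 hR hr
  exact certain r w (D + w * (5 * (w * (2 * ‖A‖)) + D)) D (2 * ‖A‖) A hw (by positivity) hgD hgr
    (window sweep ‖A‖ (2 * ‖A‖) w (w * (2 * ‖A‖)) D hR hw hD rfl hDρ hwD htime)

theorem lowerWin (r w ε c : ℝ) (N : ℕ) (A : Plane) (hw : 0 < w) (hr : 0 < r) (hA : A ≠ 0)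
    (hε : 0 < ε) (hc : 0 < c)
    (hcond : ∀ T, ‖A‖ ≤ T → r ≤ c * T ∧ c * T ≤ w * ((1 + ε) * T) ∧
          w * (5 * (w * ((1 + ε) * T)) + c * T) ≤ c * T ∧
          Real.pi * (w * ((1 + ε) * T)) ^ 2 / (c * T) + 100 * (w * ((1 + ε) * T))
            + 6 * (c * T) ≤ (1 + ε) * T - T) :
    ENNReal.ofReal (1 - ∏ j ∈ Finset.range N, (1 - 2 * r /
              ((c * (‖A‖ * (1 + ε) ^ j) + w * (5 * (w * ((1 + ε) * (‖A‖ * (1 + ε) ^ j)))
                + c * (‖A‖ * (1 + ε) ^ j))) + 2 * r))) ≤ value r w A := by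
  have hR : 0 < ‖A‖ := norm_pos_iff.mpr hA
  have h1e : (1 : ℝ) ≤ 1 + ε := by linarith
  refine multi r w A hw N (fun j => ‖A‖ * (1 + ε) ^ j) (by simp) ?_ (fun j => 2 * r /
              ((c * (‖A‖ * (1 + ε) ^ j) + w * (5 * (w * ((1 + ε) * (‖A‖ * (1 + ε) ^ j)))
                + c * (‖A‖ * (1 + ε) ^ j))) + 2 * r)) ?_ ?_
  · intro i j hij
    exact mul_le_mul_of_nonneg_left (pow_le_pow_right₀ h1e hij) hR.le
  · intro j
    constructor
    · positivity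
    · rw [div_le_one (by positivity)]
      have : 0 ≤ (c * (‖A‖ * (1 + ε) ^ j) + w * (5 * (w * ((1 + ε) * (‖A‖ * (1 + ε) ^ j)))
                + c * (‖A‖ * (1 + ε) ^ j))) := by positivity
      linarith
  · intro j _
    have hT : ‖A‖ ≤ ‖A‖ * (1 + ε) ^ j := by
      have := one_le_pow₀ h1e (n := j)
      nlinarith
    obtain ⟨h1, h2, h3, h4⟩ := hcond _ hT
    have hb : ‖A‖ * (1 + ε) ^ (j + 1) = (1 + ε) * (‖A‖ * (1 + ε) ^ j) := by ring
    have hTpos : 0 < ‖A‖ * (1 + ε) ^ j := by positivity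
    have := randWindow (‖A‖ * (1 + ε) ^ j) ((1 + ε) * (‖A‖ * (1 + ε) ^ j)) w r
      (c * (‖A‖ * (1 + ε) ^ j))
      (c * (‖A‖ * (1 + ε) ^ j) + w * (5 * (w * ((1 + ε) * (‖A‖ * (1 + ε) ^ j)))
                + c * (‖A‖ * (1 + ε) ^ j))) hr h1 (by positivity) (by linarith)
      (window sweep (‖A‖ * (1 + ε) ^ j) ((1 + ε) * (‖A‖ * (1 + ε) ^ j)) w
        (w * ((1 + ε) * (‖A‖ * (1 + ε) ^ j))) (c * (‖A‖ * (1 + ε) ^ j)) hTpos hw (by positivity)
        rfl h2 h3 h4)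
    simp only [hb]
    exact this

/-- The main theorem. -/
theorem final :
    (∀ (r w : ℝ) (A : Plane), 0 < w → w < 1 → 0 < r → r < ‖A‖ →
      value r w A ≤ ENNReal.ofReal
        ((Real.pi * (r / ((‖A‖ - r) / (1 + w))) ^ 2
            + 2 * r * (1 + w + r / ((‖A‖ - r) / (1 + w))) / ((‖A‖ - r) / (1 + w)))
          / (Real.pi * w ^ 2))) ∧
    (∀ e : ℝ, 0 < e → e < 1 → ∃ w₀ : ℝ, 0 < w₀ ∧ ∀ (w r : ℝ) (A : Plane),
      0 < w → w ≤ w₀ → 0 < r → A ≠ 0 →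
        ENNReal.ofReal (1 - Real.exp (-((1 - e) * (2 * r / (Real.pi * ‖A‖ * w ^ 2)))))
          ≤ value r w A ∧
        value r w A ≤ ENNReal.ofReal ((1 + e) * (2 * r / (Real.pi * ‖A‖ * w ^ 2)))) ∧
    (∀ (w r : ℝ) (A : Plane), 0 < w → w ≤ 1 / 2500 → A ≠ 0 →
      4 * Real.pi * ‖A‖ * w ^ 2 ≤ r → value r w A = 1) := by
  refine ⟨fun r w A hw _ hr hrA => upperAll r w A hw hr hrA, ?_,
    fun w r A hw hw1 hA hr => certainAll r w A hw hw1 hA hr⟩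
  intro e he he1
  obtain ⟨wa, hwa, hA'⟩ := paramA e he
  obtain ⟨wb, hwb, hB'⟩ := paramB e he he1
  refine ⟨min (min wa wb) (1 / 2500), by positivity, ?_⟩
  intro w r A hw hw0 hr hA
  have hwa' : w ≤ wa := hw0.trans ((min_le_left _ _).trans (min_le_left _ _))
  have hwb' : w ≤ wb := hw0.trans ((min_le_left _ _).trans (min_le_right _ _))
  have hwc' : w ≤ 1 / 2500 := hw0.trans (min_le_right _ _)
  have hR : 0 < ‖A‖ := norm_pos_iff.mpr hA
  constructor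
  · by_cases hlt : r < 4 * Real.pi * ‖A‖ * w ^ 2
    · obtain ⟨ε, c, N, hε, hc, _, hcond, hineq⟩ := hB' w r ‖A‖ hw hwb' hr hR hlt
      exact (ENNReal.ofReal_le_ofReal hineq).trans (lowerWin r w ε c N A hw hr hA hε hc hcond)
    · rw [certainAll r w A hw hwc' hA (not_lt.mp hlt)]
      rw [← ENNReal.ofReal_one]
      apply ENNReal.ofReal_le_ofReal
      have := Real.exp_pos (-((1 - e) * (2 * r / (Real.pi * ‖A‖ * w ^ 2))))
      linarith
  · by_cases hx : 2 * r / (Real.pi * ‖A‖ * w ^ 2) < 1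
    · obtain ⟨hrR, hineq⟩ := hA' w r ‖A‖ hw hwa' hr hR hx
      exact (upperAll r w A hw hr hrR).trans (ENNReal.ofReal_le_ofReal hineq)
    · refine (value_le_one r w A hw).trans ?_
      rw [← ENNReal.ofReal_one]
      apply ENNReal.ofReal_le_ofReal
      rw [not_lt] at hx
      nlinarith

end Pool.Agent.Helper865.Sub
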