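import Pool.Agent.Helper865.Sub.Defs

set_option autoImplicit false

open MeasureTheory Set Filter Topology
open scoped NNReal ENNReal

namespace Pool.Agent.Helper865.Sub


theorem window
    (sweep : ∀ (ρ D : ℝ), 0 < D → D ≤ ρ →
      ∃ (L : ℝ) (B : ℝ → Plane), 0 ≤ L ∧ L ≤ Real.pi * ρ ^ 2 / D + 100 * ρ ∧
        (∀ s t, ‖B s - B t‖ ≤ |s - t|) ∧ (∀ t ≤ 0, B t = 0) ∧ (∀ t, L ≤ t → B t = 0) ∧
        ∀ (w : ℝ) (h : ℝ → Plane), 0 ≤ w → w * (5 * ρ + D) ≤ D →
          (∀ s ∈ Icc 0 L, ∀ t ∈ Icc 0 L, ‖h s - h t‖ ≤ w * |s - t|) →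
          (∀ t ∈ Icc 0 L, ‖h t‖ ≤ ρ) →
          ∃ t ∈ Icc 0 L, ∃ z ∈ Icc 0 (D + w * (5 * ρ + D)),
            (h t) 0 = (B t) 0 ∧ (h t) 1 = (B t) 1 + z)
    (a b w ρ D : ℝ) (ha : 0 < a) (hw : 0 < w) (hD : 0 < D)
    (hρ : ρ = w * b) (hDρ : D ≤ ρ) (hwD : w * (5 * ρ + D) ≤ D)
    (htime : Real.pi * ρ ^ 2 / D + 100 * ρ + 6 * D ≤ b - a) :
    ∃ W : ℝ → ℝ → Plane, (∀ t, Continuous fun v => W v t) ∧
      (∀ v s t, ‖W v s - W v t‖ ≤ |s - t|) ∧ (∀ v, ∀ t ≤ a, W v t = 0) ∧
      (∀ v t, b ≤ t → W v t = 0) ∧
      ∀ h ∈ Paths (0 : Plane) w, ∃ z ∈ Icc 0 (D + w * (5 * ρ + D)),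
        ∀ v ∈ Icc (-(3 * D)) (3 * D), ∃ t : ℝ≥0, a ≤ t ∧ (t : ℝ) ≤ b ∧
          ‖W v t - h t‖ ≤ |v - z| := by
  obtain ⟨L, B, hL0, hL, hB1, hBl, hBr, hcap⟩ := sweep ρ D hD hDρ
  have hLb : L + 6 * D ≤ b - a := by linarith
  -- clamp in time
  set a0 : ℝ := a + 3 * D with ha0
  set b0 : ℝ := b - 3 * D with hb0
  have hab0 : a0 + L ≤ b0 := by rw [ha0, hb0]; linarith
  have hab : a0 ≤ b0 := by linarith
  let c : ℝ → ℝ := fun t => max a0 (min t b0)
  let bump : ℝ → ℝ := fun t => max 0 (1 - |t - c t| / (3 * D))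
  let cl : ℝ → ℝ := fun v => max (-(3 * D)) (min v (3 * D))
  let e : Plane := EuclideanSpace.single (1 : Fin 2) (1 : ℝ)
  have he : ‖e‖ = 1 := by simp [e]
  have he0 : e 0 = 0 := by simp [e]
  have he1 : e 1 = 1 := by simp [e]
  have hc_left : ∀ t, t ≤ a0 → c t = a0 := fun t ht => by
    simp only [c]
    rw [min_eq_left (by linarith), max_eq_left ht]
  have hc_right : ∀ t, b0 ≤ t → c t = b0 := fun t ht => by
    simp only [c]
    rw [min_eq_right ht, max_eq_right hab]
  have hc_mid : ∀ t, a0 ≤ t → t ≤ b0 → c t = t := fun t h1 h2 => by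
    simp only [c]
    rw [min_eq_left h2, max_eq_right h1]
  have hc_lip : ∀ s t, s ≤ t → c s ≤ c t ∧ c t - c s ≤ t - s := by
    intro s t hst
    rcases le_total s a0 with h1 | h1 <;> rcases le_total t a0 with h2 | h2
    · rw [hc_left s h1, hc_left t h2]; constructor <;> linarith
    · rw [hc_left s h1]
      rcases le_total t b0 with h3 | h3
      · rw [hc_mid t h2 h3]; constructor <;> linarith
      · rw [hc_right t h3]; constructor <;> linarith
    · have : s = a0 := by linarith
      have h2' : t = a0 := by linarith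
      rw [this, h2']; constructor <;> linarith
    · rcases le_total s b0 with h3 | h3 <;> rcases le_total t b0 with h4 | h4
      · rw [hc_mid s h1 h3, hc_mid t h2 h4]; constructor <;> linarith
      · rw [hc_mid s h1 h3, hc_right t h4]; constructor <;> linarith
      · have : s = b0 := by linarith
        have h2' : t = b0 := by linarith
        rw [this, h2']; constructor <;> linarith
      · rw [hc_right s h3, hc_right t h4]; constructor <;> linarith
  have hcl : ∀ v, |cl v| ≤ 3 * D := by
    intro v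
    simp only [cl]
    rw [abs_le]
    constructor
    · exact le_max_left _ _
    · exact max_le (by linarith) (min_le_right _ _)
  have hBc : ∀ t, B (t - a0) = B (c t - a0) := by
    intro t
    rcases le_total t a0 with h1 | h1
    · rw [hc_left t h1, hBl _ (by linarith), hBl _ (by linarith)]
    · rcases le_total t b0 with h2 | h2
      · rw [hc_mid t h1 h2]
      · rw [hc_right t h2, hBr _ (by linarith), hBr _ (by linarith)]
  have hD3 : (0 : ℝ) < 3 * D := by linarith
  have hbump_lip : ∀ s t, s ≤ t → |bump s - bump t| * (3 * D) ≤ (t - s) - (c t - c s) := by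
    intro s t hst
    obtain ⟨h1, h2⟩ := hc_lip s t hst
    have h3 : |bump s - bump t| ≤ |(1 - |s - c s| / (3 * D)) - (1 - |t - c t| / (3 * D))| := by
      simp only [bump]
      have := abs_max_sub_max_le_max 0 (1 - |s - c s| / (3 * D)) 0 (1 - |t - c t| / (3 * D))
      simpa using this
    have h4 : |(1 - |s - c s| / (3 * D)) - (1 - |t - c t| / (3 * D))| * (3 * D)
        = abs (|t - c t| - |s - c s|) := by
      have : (1 - |s - c s| / (3 * D)) - (1 - |t - c t| / (3 * D))
          = (|t - c t| - |s - c s|) / (3 * D) := by ring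
      rw [this, abs_div, abs_of_pos hD3]
      field_simp
    have h5 : abs (|t - c t| - |s - c s|) ≤ |(t - c t) - (s - c s)| := abs_abs_sub_abs_le _ _
    have h6 : |(t - c t) - (s - c s)| = (t - s) - (c t - c s) := by
      rw [abs_of_nonneg (by linarith)]; ring
    calc |bump s - bump t| * (3 * D)
        ≤ |(1 - |s - c s| / (3 * D)) - (1 - |t - c t| / (3 * D))| * (3 * D) := by
          gcongr
      _ = abs (|t - c t| - |s - c s|) := h4
      _ ≤ (t - s) - (c t - c s) := by rw [← h6]; exact h5
  let W : ℝ → ℝ → Plane := fun v t => B (t - a0) + (bump t * cl v) • e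
  have hWlip' : ∀ v s t, s ≤ t → ‖W v s - W v t‖ ≤ t - s := by
    intro v s t hst
    obtain ⟨h1, h2⟩ := hc_lip s t hst
    have e1 : W v s - W v t = (B (c s - a0) - B (c t - a0)) + ((bump s - bump t) * cl v) • e := by
      simp only [W]
      rw [← hBc s, ← hBc t, sub_mul, sub_smul]
      abel
    rw [e1]
    calc ‖(B (c s - a0) - B (c t - a0)) + ((bump s - bump t) * cl v) • e‖
        ≤ ‖B (c s - a0) - B (c t - a0)‖ + ‖((bump s - bump t) * cl v) • e‖ := norm_add_le _ _
      _ ≤ (c t - c s) + ((t - s) - (c t - c s)) := by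
          apply add_le_add
          · refine (hB1 _ _).trans ?_
            rw [abs_le]; constructor <;> linarith
          · rw [norm_smul, he, mul_one, Real.norm_eq_abs, abs_mul]
            refine le_trans ?_ (hbump_lip s t hst)
            gcongr
            exact hcl v
      _ = t - s := by ring
  refine ⟨W, ?_, ?_, ?_, ?_, ?_⟩
  · intro t
    simp only [W, cl]
    fun_prop
  · intro v s t
    rcases le_total s t with h | h
    · have := hWlip' v s t h
      rw [abs_sub_comm, abs_of_nonneg (by linarith)]; exact this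
    · have := hWlip' v t s h
      rw [norm_sub_rev, abs_of_nonneg (by linarith)]; exact this
  · intro v t ht
    have h1 : bump t = 0 := by
      simp only [bump]
      rw [hc_left t (by linarith)]
      apply max_eq_left
      rw [abs_of_nonpos (by linarith)]
      rw [sub_nonpos, le_div_iff₀ hD3]
      linarith
    simp only [W]
    rw [h1, hBl _ (by linarith)]
    simp
  · intro v t ht
    have h1 : bump t = 0 := by
      simp only [bump]
      rw [hc_right t (by linarith)]
      apply max_eq_left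
      rw [abs_of_nonneg (by linarith)]
      rw [sub_nonpos, le_div_iff₀ hD3]
      linarith
    simp only [W]
    rw [h1, hBr _ (by linarith)]
    simp
  · intro h hh
    obtain ⟨hh0, hhl⟩ := hh
    have hb : 0 < b := by nlinarith
    let h' : ℝ → Plane := fun s => h (Real.toNNReal (s + a0))
    have hlip' : ∀ s ∈ Icc 0 L, ∀ t ∈ Icc 0 L, ‖h' s - h' t‖ ≤ w * |s - t| := by
      intro s hs t ht
      have := hhl (Real.toNNReal (s + a0)) (Real.toNNReal (t + a0))
      rw [Real.coe_toNNReal _ (by linarith [hs.1]), Real.coe_toNNReal _ (by linarith [ht.1])] at this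
      have e2 : s + a0 - (t + a0) = s - t := by ring
      rw [e2] at this
      exact this
    have hbd' : ∀ t ∈ Icc 0 L, ‖h' t‖ ≤ ρ := by
      intro t ht
      have := hhl (Real.toNNReal (t + a0)) 0
      rw [Real.coe_toNNReal _ (by linarith [ht.1]), hh0] at this
      simp only [NNReal.coe_zero, sub_zero] at this
      rw [abs_of_nonneg (by linarith [ht.1])] at this
      refine this.trans ?_
      rw [hρ]
      gcongr
      linarith [ht.2]
    obtain ⟨t, ht, z, hz, hz0, hz1⟩ := hcap w h' hw.le hwD hlip' hbd'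
    refine ⟨z, hz, ?_⟩
    intro v hv
    have hta : 0 ≤ t + a0 := by linarith [ht.1]
    refine ⟨Real.toNNReal (t + a0), ?_, ?_, ?_⟩
    · rw [Real.coe_toNNReal _ hta]; linarith [ht.1]
    · rw [Real.coe_toNNReal _ hta]; linarith [ht.2]
    · rw [Real.coe_toNNReal _ hta]
      have hb1 : bump (t + a0) = 1 := by
        simp only [bump]
        rw [hc_mid _ (by linarith [ht.1]) (by linarith [ht.2])]
        simp
      have hclv : cl v = v := by
        simp only [cl]
        rw [min_eq_left hv.2, max_eq_right hv.1]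
      have hWv : W v (t + a0) = B t + v • e := by
        simp only [W]
        rw [hb1, hclv, one_mul]
        congr 2
        ring
      have hkey : W v (t + a0) - h (Real.toNNReal (t + a0)) = (v - z) • e := by
        rw [hWv]
        have hz0' : (h (Real.toNNReal (t + a0))) 0 = (B t) 0 := hz0
        have hz1' : (h (Real.toNNReal (t + a0))) 1 = (B t) 1 + z := hz1
        ext i
        fin_cases i
        · simp [hz0', he0]
        · simp [hz1', he1]
      rw [hkey, norm_smul, he, mul_one, Real.norm_eq_abs]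

end Pool.Agent.Helper865.Sub
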